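import Pool.Agent.J4H53.DI.Forms

set_option autoImplicit false

/-!
# Numbers avoiding the roots of forms of discriminant -3 are Dirichlet improvable
for the Euclidean norm
-/

namespace Pool.Agent.J4H53.DI

open Set

/-- `x` avoids all centres `-b / (2 a)` of forms of discriminant `-3`. -/
def Av (ε x : ℝ) : Prop := ∀ a b : ℤ, IsF a b → ε ≤ |2 * a * x + b|

lemma IsF.neg {a b : ℤ} (h : IsF a b) : IsF a (-b) := by
  obtain ⟨ha, c, hc⟩ := h
  exact ⟨ha, c, by linarith [neg_sq b]⟩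

/-- the quadratic form -/
noncomputable def G (A C x : ℝ) (p q : ℤ) : ℝ := A * (p + q * x) ^ 2 + C * (q : ℝ) ^ 2

lemma exists_min {A C x : ℝ} (hA : 0 < A) (hC : 0 < C) :
    ∃ p q : ℤ, ¬(p = 0 ∧ q = 0) ∧ ∀ p' q' : ℤ, ¬(p' = 0 ∧ q' = 0) → G A C x p q ≤ G A C x p' q' := by
  set S : Set (ℤ × ℤ) := {v | ¬(v.1 = 0 ∧ v.2 = 0) ∧ G A C x v.1 v.2 ≤ G A C x 1 0} with hS
  have hfin : S.Finite := by
    obtain ⟨N, hN⟩ := exists_nat_gt (G A C x 1 0 / C)
    obtain ⟨M, hM⟩ := exists_nat_gt (G A C x 1 0 / A)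
    obtain ⟨L, hL⟩ := exists_nat_gt (|x| * (N : ℝ))
    refine Set.Finite.subset (Set.finite_Icc (-(M + L : ℤ), -(N : ℤ)) ((M + L : ℤ), (N : ℤ))) ?_
    rintro ⟨p, q⟩ ⟨_, h2⟩
    simp only at h2
    have g0 : G A C x p q = A * (p + q * x) ^ 2 + C * (q : ℝ) ^ 2 := rfl
    have hq : ((q : ℝ)) ^ 2 < N := by
      have : C * (q : ℝ) ^ 2 ≤ G A C x 1 0 := by
        have := mul_nonneg hA.le (sq_nonneg ((p : ℝ) + q * x)); linarith
      calc (q : ℝ) ^ 2 ≤ G A C x 1 0 / C := by rw [le_div_iff₀ hC]; linarith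
        _ < N := hN
    have hp : ((p : ℝ) + q * x) ^ 2 < M := by
      have : A * ((p : ℝ) + q * x) ^ 2 ≤ G A C x 1 0 := by
        have := mul_nonneg hC.le (sq_nonneg ((q : ℝ))); linarith
      calc ((p : ℝ) + q * x) ^ 2 ≤ G A C x 1 0 / A := by rw [le_div_iff₀ hA]; linarith
        _ < M := hM
    have hqN : |(q : ℝ)| ≤ N := by
      have h1 : (q : ℤ) ^ 2 < (N : ℤ) := by exact_mod_cast hq
      have h2 : |q| ≤ (N : ℤ) := by
        rcases eq_or_ne q 0 with h | h
        · simp [h]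
        · have : |q| ≤ q ^ 2 := by
            rw [← sq_abs]
            have := abs_pos.2 h
            nlinarith
          linarith
      exact_mod_cast h2
    have hpM : |(p : ℝ) + q * x| ≤ M := by
      rcases le_or_gt (|(p : ℝ) + q * x|) 1 with h | h
      · have hM1 : (1 : ℝ) ≤ M := by
          have : (0 : ℝ) < M := lt_of_le_of_lt (sq_nonneg _) hp
          exact_mod_cast this
        linarith
      · have : |(p : ℝ) + q * x| ≤ ((p : ℝ) + q * x) ^ 2 := by
          rw [← sq_abs]; nlinarith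
        linarith
    have hp2 : |(p : ℝ)| ≤ M + L := by
      have h1 : |(p : ℝ)| ≤ |(p : ℝ) + q * x| + |(q : ℝ) * x| := by
        have := abs_sub ((p : ℝ) + q * x) (q * x)
        simpa using this
      have h2 : |(q : ℝ) * x| ≤ |x| * N := by
        rw [abs_mul, mul_comm]; exact mul_le_mul_of_nonneg_left hqN (abs_nonneg _)
      linarith
    have hp3 : |p| ≤ (M + L : ℤ) := by exact_mod_cast hp2
    have hq3 : |q| ≤ (N : ℤ) := by exact_mod_cast hqN
    rw [abs_le] at hp3 hq3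
    exact ⟨⟨hp3.1, hq3.1⟩, hp3.2, hq3.2⟩
  have hne : S.Nonempty := ⟨(1, 0), by simp [hS]⟩
  obtain ⟨v, hv, hmin⟩ := Set.exists_min_image S (fun v => G A C x v.1 v.2) hfin hne
  refine ⟨v.1, v.2, hv.1, fun p' q' h' => ?_⟩
  by_cases hle : G A C x p' q' ≤ G A C x 1 0
  · exact hmin (p', q') ⟨h', hle⟩
  · push Not at hle
    exact hv.2.trans hle.le

/-- The real extension of the form. -/
noncomputable def Gr (A C x X Y : ℝ) : ℝ := A * (X + Y * x) ^ 2 + C * Y ^ 2

theorem exists_reduced {A C x : ℝ} (hA : 0 < A) (hC : 0 < C) :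
    ∃ p1 q1 p2 q2 : ℤ, ∃ m1 m2 B : ℝ, p1 * q2 - p2 * q1 = 1 ∧
      (∃ p q : ℤ, ¬(p = 0 ∧ q = 0) ∧ m1 = G A C x p q) ∧
      0 < m1 ∧ m1 ≤ m2 ∧ |B| ≤ m1 ∧ 4 * m1 * m2 - B ^ 2 = 4 * A * C ∧
      ∀ m n : ℝ, Gr A C x (m * p1 + n * p2) (m * q1 + n * q2) =
        m1 * m ^ 2 + B * m * n + m2 * n ^ 2 := by
  obtain ⟨p, q, hne, hmin⟩ := exists_min (x := x) hA hC
  have hpos : 0 < G A C x p q := by
    unfold G
    rcases eq_or_ne q 0 with h | h
    · have hp : p ≠ 0 := fun h' => hne ⟨h', h⟩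
      subst h
      have : (p : ℝ) ≠ 0 := by exact_mod_cast hp
      simp only [Int.cast_zero, zero_mul, add_zero]
      positivity
    · have : (q : ℝ) ≠ 0 := by exact_mod_cast h
      have h1 : 0 ≤ A * ((p : ℝ) + q * x) ^ 2 := by positivity
      have h2 : 0 < C * (q : ℝ) ^ 2 := by positivity
      linarith
  -- primitive
  have hcop : IsCoprime p q := by
    rw [Int.isCoprime_iff_gcd_eq_one]
    by_contra hg
    have hg0 : Int.gcd p q ≠ 0 := by
      intro h0
      rw [Int.gcd_eq_zero_iff] at h0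
      exact hne h0
    have hg2 : 2 ≤ Int.gcd p q := by omega
    obtain ⟨p', hp'⟩ := Int.gcd_dvd_left (a := p) (b := q)
    obtain ⟨q', hq'⟩ := Int.gcd_dvd_right (a := p) (b := q)
    set g : ℤ := (Int.gcd p q : ℤ) with hgdef
    have hg2' : (2 : ℤ) ≤ g := by rw [hgdef]; exact_mod_cast hg2
    have hne' : ¬(p' = 0 ∧ q' = 0) := by
      rintro ⟨h1, h2⟩
      apply hne
      constructor
      · rw [hp', h1, mul_zero]
      · rw [hq', h2, mul_zero]
    have h1 := hmin p' q' hne'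
    have h2 : G A C x p q = (g : ℝ) ^ 2 * G A C x p' q' := by
      have e1 : (p : ℝ) = g * p' := by exact_mod_cast hp'
      have e2 : (q : ℝ) = g * q' := by exact_mod_cast hq'
      unfold G
      rw [e1, e2]; ring
    have hgr : (2 : ℝ) ≤ g := by exact_mod_cast hg2'
    have h3 : 0 < G A C x p' q' := by
      by_contra h4
      push Not at h4
      have := mul_nonneg (sq_nonneg (g : ℝ)) (neg_nonneg.2 h4)
      linarith
    have h5 : (4 : ℝ) ≤ (g : ℝ) ^ 2 := by nlinarith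
    have h6 := mul_le_mul_of_nonneg_right h5 h3.le
    linarith
  obtain ⟨u, v, huv⟩ := hcop
  -- second vector
  set m1 := G A C x p q with hm1
  set B' : ℝ := 2 * A * (p + q * x) * ((-v : ℤ) + (u : ℤ) * x) + 2 * C * q * (u : ℤ) with hB'
  set k : ℤ := round (-B' / (2 * m1)) with hk
  set p2 : ℤ := -v + k * p with hp2
  set q2 : ℤ := u + k * q with hq2
  set B : ℝ := B' + 2 * k * m1 with hB
  have hdet : p * q2 - p2 * q = 1 := by rw [hp2, hq2]; linear_combination huv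
  have hBle : |B| ≤ m1 := by
    have h1 := abs_sub_round (-B' / (2 * m1))
    rw [← hk] at h1
    have h2 : B = -(2 * m1) * (-B' / (2 * m1) - k) := by
      rw [hB]; field_simp; ring
    rw [h2, abs_mul, abs_neg, abs_of_pos (by linarith : 0 < 2 * m1)]
    nlinarith
  have hBval : B = 2 * A * (p + q * x) * (p2 + q2 * x) + 2 * C * q * q2 := by
    rw [hB, hB', hm1, hp2, hq2]
    unfold G
    push_cast
    ring
  refine ⟨p, q, p2, q2, m1, G A C x p2 q2, B, hdet, ⟨p, q, hne, rfl⟩, hpos, ?_, hBle, ?_, ?_⟩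
  · apply hmin
    rintro ⟨h1, h2⟩
    rw [h1, h2] at hdet
    simp at hdet
  · have hd : ((p : ℝ) * q2 - p2 * q) = 1 := by exact_mod_cast hdet
    have : 4 * m1 * G A C x p2 q2 - B ^ 2 = 4 * A * C * ((p : ℝ) * q2 - p2 * q) ^ 2 := by
      rw [hBval, hm1]; unfold G; ring
    rw [this, hd]; ring
  · intro m n
    rw [hBval, hm1]
    unfold G Gr
    ring

end Pool.Agent.J4H53.DI
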