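import Pool.Agent.J4H53.DI.Defs
import Pool.Agent.J4H53.DI.Lat

set_option autoImplicit false

namespace Pool.Agent.J4H53.DI

open Set

lemma ne_zero_of_mem {x c t : ℝ} (hc : 0 < c) (ht : 0 < t) {p q : ℤ} (h0 : ¬(p = 0 ∧ q = 0))
    (h : G (t ^ 2 / c ^ 2) (1 / t ^ 2) x p q ≤ 2 / Real.sqrt 3) : Lam x ∩ Box c t ≠ {0} := by
  intro h1
  have hmem : (((p : ℝ) + q * x, (q : ℝ)) : ℝ × ℝ) ∈ Lam x ∩ Box c t := by
    refine ⟨⟨p, q, rfl⟩, t * (p + q * x) / c, q / t, ?_, ?_⟩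
    · rw [r2_sq]
      refine le_trans (le_of_eq ?_) h
      unfold G
      field_simp
    · ext
      · simp only; field_simp
      · simp only; field_simp
  rw [h1, Set.mem_singleton_iff, Prod.mk_eq_zero] at hmem
  obtain ⟨e1, e2⟩ := hmem
  have hq : q = 0 := by exact_mod_cast e2
  subst hq
  simp only [Int.cast_zero, zero_mul, add_zero] at e1
  exact h0 ⟨by exact_mod_cast e1, rfl⟩

/-- If all the values of a form of discriminant `4κ` (with `κ` close to 1) at nonzero integer points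
are at least `2/√3`, then `x` is close to the centre of an integer form of discriminant `-3`. -/
theorem close_of_large {A C x κ d : ℝ} (hA : 0 < A) (hC : 0 < C) (hAC : A * C = κ)
    (hκ : κ = 1 + d) (hd : 0 ≤ d) (hd1 : d ≤ 1 / 100)
    (hbig : ∀ p q : ℤ, ¬(p = 0 ∧ q = 0) → 2 / Real.sqrt 3 ≤ G A C x p q) :
    ∃ a b : ℤ, IsF a b ∧ (1 - 3 * d) ^ 2 * ((2 * a * x + b) ^ 2 + 3) ≤ 3 * κ := by
  obtain ⟨p1, q1, p2, q2, m1, m2, B, hdet, ⟨p, q, hpq, hm1⟩, hm1pos, hm12, hB, hdisc, hval⟩ :=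
    exists_reduced (x := x) hA hC
  have hm1h : 2 / Real.sqrt 3 ≤ m1 := by rw [hm1]; exact hbig p q hpq
  set h : ℝ := 2 / Real.sqrt 3 with hh
  have hh2 : h ^ 2 = 4 / 3 := by
    rw [hh, div_pow, Real.sq_sqrt (by norm_num)]; norm_num
  have hh0 : 0 < h := by rw [hh]; positivity
  have hdisc' : 4 * m1 * m2 - B ^ 2 = 4 * κ := by rw [hdisc, ← hAC]; ring
  have hB2 : B ^ 2 ≤ m1 ^ 2 := by
    rw [← sq_abs B]; exact pow_le_pow_left₀ (abs_nonneg _) hB 2
  -- bounds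
  have b1 : m1 ^ 2 ≤ 4 / 3 * κ := by nlinarith
  have b1' : m1 ≤ h * (1 + 3 * d) := by
    have : m1 ^ 2 ≤ (h * (1 + 3 * d)) ^ 2 := by
      rw [mul_pow, hh2, hκ] at *
      nlinarith
    exact abs_le_of_sq_le_sq' this (by positivity) |>.2
  have b2 : m2 ≤ h * (1 + 3 * d) := by
    -- 4 m1 m2 ≤ 4κ + m1², and m1 ∈ [h, ...]
    have e1 : 4 * m1 * m2 ≤ 4 * κ + m1 ^ 2 := by linarith
    have e2 : m1 * (4 * (h * (1 + 3 * d))) ≥ 4 * κ + m1 ^ 2 := by
      -- (m1 - h) * (4h(1+3d) - ... )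
      have k1 : m1 ≤ 2 * h := by nlinarith
      have k2 : 0 ≤ (m1 - h) * (3 * h - m1) := mul_nonneg (by linarith) (by linarith)
      have k3 : 0 ≤ (m1 - h) * (h * d) := mul_nonneg (by linarith) (by positivity)
      nlinarith
    have e3 : 4 * m1 * m2 ≤ 4 * m1 * (h * (1 + 3 * d)) := by linarith
    exact le_of_mul_le_mul_left e3 (by positivity)
  have b3 : (h * (1 - 3 * d)) ^ 2 ≤ B ^ 2 := by
    have : 4 * m1 ^ 2 - 4 * κ ≤ B ^ 2 := by nlinarith
    have e4 : h ^ 2 ≤ m1 ^ 2 := pow_le_pow_left₀ hh0.le hm1h 2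
    rw [mul_pow, hh2]
    nlinarith
  have hw : 0 < 1 - 3 * d := by linarith
  have b4 : h * (1 - 3 * d) ≤ |B| := by
    have := sq_le_sq.1 b3
    rw [abs_of_pos (by positivity)] at this
    exact this
  -- the sign
  obtain ⟨s, hs2, hsB⟩ : ∃ s : ℤ, s ^ 2 = 1 ∧ |B| = s * B := by
    rcases abs_choice B with hc | hc
    · exact ⟨1, by norm_num, by rw [hc]; simp⟩
    · exact ⟨-1, by norm_num, by rw [hc]; simp⟩
  have hs2r : (s : ℝ) ^ 2 = 1 := by exact_mod_cast hs2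
  -- comparison of the two forms
  have cmp : ∀ m n : ℝ, (1 - 3 * d) * h * (m ^ 2 + s * (m * n) + n ^ 2) ≤
      m1 * m ^ 2 + B * m * n + m2 * n ^ 2 := by
    intro m n
    have hBs : B = s * |B| := by rw [hsB]; linear_combination (-B) * hs2r
    have k1 : |m * n| ≤ m ^ 2 + s * (m * n) + n ^ 2 := by
      have e1 : |(s : ℝ) * (m * n)| = |m * n| := by
        rw [abs_mul]
        have : |(s : ℝ)| = 1 := by
          have : |(s : ℝ)| ^ 2 = 1 := by rw [sq_abs]; exact hs2r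
          nlinarith [abs_nonneg (s : ℝ)]
        rw [this, one_mul]
      have e2 := neg_abs_le ((s : ℝ) * (m * n))
      rw [e1] at e2
      have e3 : 2 * |m * n| ≤ m ^ 2 + n ^ 2 := by
        rw [abs_mul]
        nlinarith [sq_nonneg (|m| - |n|), sq_abs m, sq_abs n]
      linarith
    set P : ℝ := s * (m * n) with hP
    have e4 : B * m * n = |B| * P := by
      rw [hP]; nth_rw 1 [hBs]; ring
    rw [e4]
    have e5 : |P| = |m * n| := by
      rw [hP, abs_mul]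
      have : |(s : ℝ)| = 1 := by
        have : |(s : ℝ)| ^ 2 = 1 := by rw [sq_abs]; exact hs2r
        nlinarith [abs_nonneg (s : ℝ)]
      rw [this, one_mul]
    rw [← e5] at k1
    have hB1 : |B| ≤ h * (1 + 3 * d) := hB.trans b1'
    have e6 : (|B| - h) * P ≥ -(3 * d * h) * |P| := by
      have h1 : |(|B| - h) * P| ≤ (3 * d * h) * |P| := by
        rw [abs_mul]
        apply mul_le_mul_of_nonneg_right _ (abs_nonneg _)
        rw [abs_le]; constructor <;> linarith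
      have := neg_abs_le ((|B| - h) * P)
      linarith
    have e7 := mul_le_mul_of_nonneg_left k1 (by positivity : 0 ≤ 3 * d * h)
    have e8 := mul_nonneg (sub_nonneg.2 hm1h) (sq_nonneg m)
    have e9 := mul_nonneg (sub_nonneg.2 (hm1h.trans hm12)) (sq_nonneg n)
    nlinarith
  set a : ℤ := q2 ^ 2 - s * q1 * q2 + q1 ^ 2 with ha
  set b' : ℤ := -2 * p2 * q2 + s * (q2 * p1 + p2 * q1) - 2 * p1 * q1 with hb'
  set c : ℤ := p2 ^ 2 - s * p1 * p2 + p1 ^ 2 with hc
  have hdisc3 : b' ^ 2 + 3 = 4 * a * c := by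
    rw [ha, hb', hc]
    linear_combination (s ^ 2 - 4) * (p1 * q2 - p2 * q1 + 1) * hdet + hs2
  have ha0 : 0 < a := by
    have h1 : 0 ≤ a := by
      rw [ha]
      nlinarith [sq_nonneg (2 * q2 - s * q1), sq_nonneg q1]
    rcases h1.lt_or_eq with h2 | h2
    · exact h2
    · exfalso
      rw [← h2] at hdisc3
      nlinarith [sq_nonneg b']
  refine ⟨a, -b', ⟨ha0, c, by rw [neg_sq]; exact hdisc3⟩, ?_⟩
  have har : (a : ℝ) = q2 ^ 2 - s * q1 * q2 + q1 ^ 2 := by rw [ha]; push_cast; ring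
  have hbr : (b' : ℝ) = -2 * p2 * q2 + s * (q2 * p1 + p2 * q1) - 2 * p1 * q1 := by
    rw [hb']; push_cast; ring
  have hcr : (c : ℝ) = p2 ^ 2 - s * p1 * p2 + p1 ^ 2 := by rw [hc]; push_cast; ring
  have hdetr : (p1 : ℝ) * q2 - p2 * q1 = 1 := by exact_mod_cast hdet
  have hdisc3r : (b' : ℝ) ^ 2 + 3 = 4 * a * c := by exact_mod_cast hdisc3
  have hA' : (1 - 3 * d) * h * a ≤ A := by
    have h1 := cmp q2 (-q1)
    rw [← hval] at h1
    have e1 : Gr A C x (q2 * p1 + -q1 * p2) (q2 * q1 + -q1 * q2) = A := by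
      have f1 : (q2 : ℝ) * p1 + -q1 * p2 = 1 := by linarith
      have f2 : (q2 : ℝ) * q1 + -q1 * q2 = 0 := by ring
      rw [f1, f2]; unfold Gr; ring
    rw [e1] at h1
    refine le_trans (le_of_eq ?_) h1
    rw [har]; ring
  have hC' : (1 - 3 * d) * h * (((2 * a * x - b') ^ 2 + 3) / (4 * a)) ≤ C := by
    have h1 := cmp (-x * q2 - p2) (p1 + x * q1)
    rw [← hval] at h1
    have e1 : Gr A C x ((-x * q2 - p2) * p1 + (p1 + x * q1) * p2)
        ((-x * q2 - p2) * q1 + (p1 + x * q1) * q2) = C := by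
      have f1 : (-x * (q2 : ℝ) - p2) * p1 + (p1 + x * q1) * p2 = -x := by
        linear_combination (-x) * hdetr
      have f2 : (-x * (q2 : ℝ) - p2) * q1 + (p1 + x * q1) * q2 = 1 := by
        linear_combination hdetr
      rw [f1, f2]; unfold Gr; ring
    rw [e1] at h1
    refine le_trans (le_of_eq ?_) h1
    have har0 : (0 : ℝ) < a := by exact_mod_cast ha0
    have e2 : ((2 * a * x - b') ^ 2 + 3) / (4 * a) = a * x ^ 2 - b' * x + c := by
      rw [div_eq_iff (by positivity)]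
      linear_combination hdisc3r
    rw [e2, har, hbr, hcr]; ring
  have har0 : (0 : ℝ) < a := by exact_mod_cast ha0
  have hprod : ((1 - 3 * d) * h * a) * ((1 - 3 * d) * h * (((2 * a * x - b') ^ 2 + 3) / (4 * a)))
      ≤ A * C := mul_le_mul hA' hC' (by positivity) hA.le
  have e1 : ((1 - 3 * d) * h * a) * ((1 - 3 * d) * h * (((2 * a * x - b') ^ 2 + 3) / (4 * a))) =
      (1 - 3 * d) ^ 2 * h ^ 2 * ((2 * a * x - b') ^ 2 + 3) / 4 := by
    field_simp
  rw [e1, hh2, hAC] at hprod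
  push_cast
  have e2 : (2 * a * x + -b' : ℝ) = 2 * a * x - b' := by ring
  rw [e2]
  linarith

/-- Numbers avoiding all centres are Dirichlet improvable for the Euclidean norm. -/
theorem Av.mem_DI2 {ε x : ℝ} (hε : 0 < ε) (hx : Av ε x) : x ∈ DI2 := by
  set d : ℝ := min 1 (ε ^ 2) / 100 with hd
  have hd0 : 0 < d := by rw [hd]; have : 0 < min 1 (ε ^ 2) := lt_min one_pos (by positivity); positivity
  have hd1 : d ≤ 1 / 100 := by
    rw [hd]
    have : min 1 (ε ^ 2) ≤ 1 := min_le_left _ _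
    linarith
  have hd2 : 100 * d ≤ ε ^ 2 := by
    rw [hd]
    have : min 1 (ε ^ 2) ≤ ε ^ 2 := min_le_right _ _
    linarith
  set c : ℝ := 1 / Real.sqrt (1 + d) with hc
  have hs1 : 1 < Real.sqrt (1 + d) := by
    rw [Real.lt_sqrt (by norm_num)]; linarith
  have hc0 : 0 < c := by rw [hc]; positivity
  have hc1 : c < 1 := by
    rw [hc, div_lt_one (by linarith)]; exact hs1
  have hc2 : 1 / c ^ 2 = 1 + d := by
    rw [hc, div_pow, one_pow, one_div_one_div, Real.sq_sqrt (by linarith)]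
  refine ⟨c, hc0, hc1, 0, fun t _ ht => ?_⟩
  by_contra hcon
  have hbig : ∀ p q : ℤ, ¬(p = 0 ∧ q = 0) → 2 / Real.sqrt 3 ≤ G (t ^ 2 / c ^ 2) (1 / t ^ 2) x p q := by
    intro p q h0
    by_contra hlt
    push Not at hlt
    exact ne_zero_of_mem hc0 ht h0 hlt.le hcon
  obtain ⟨a, b, hF, hle⟩ := close_of_large (A := t ^ 2 / c ^ 2) (C := 1 / t ^ 2) (x := x)
    (κ := 1 + d) (d := d) (by positivity) (by positivity)
    (by rw [← hc2]; field_simp) rfl hd0.le hd1 hbig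
  have h1 := hx a b hF
  have h2 : ε ^ 2 ≤ (2 * a * x + b) ^ 2 := by
    rw [← sq_abs (2 * a * x + b)]
    exact pow_le_pow_left₀ hε.le h1 2
  have h3 : (1 - 3 * d) ^ 2 * (ε ^ 2 + 3) ≤ 3 * (1 + d) := by
    refine le_trans ?_ hle
    apply mul_le_mul_of_nonneg_left _ (sq_nonneg _)
    linarith
  have h4 : (1 - 6 * d) * (ε ^ 2 + 3) ≤ (1 - 3 * d) ^ 2 * (ε ^ 2 + 3) := by
    apply mul_le_mul_of_nonneg_right _ (by positivity)
    nlinarith
  have h5 : (1 - 6 * d) * (100 * d) ≤ (1 - 6 * d) * ε ^ 2 :=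
    mul_le_mul_of_nonneg_left hd2 (by linarith)
  nlinarith

end Pool.Agent.J4H53.DI
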