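import Mathlib

set_option autoImplicit false

/-!
# Dirichlet improvable numbers for the Euclidean norm: definitions
-/

namespace Pool.Agent.J4H53.DI

/-- The critical radius `(2 / √3) ^ (1/2)` of the Euclidean norm on `ℝ ^ 2`. -/
noncomputable def r2 : ℝ := Real.sqrt (2 / Real.sqrt 3)

/-- The lattice `Λ_x = {(p + q x, q) : p, q ∈ ℤ}`. -/
def Lam (x : ℝ) : Set (ℝ × ℝ) := {w | ∃ p q : ℤ, w = ((p : ℝ) + q * x, (q : ℝ))}

/-- The image of the closed ball of radius `r2` about `0` under `diag (c t⁻¹, t)`. -/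
def Box (c t : ℝ) : Set (ℝ × ℝ) :=
  {w | ∃ u v : ℝ, u ^ 2 + v ^ 2 ≤ r2 ^ 2 ∧ w = (c * t⁻¹ * u, t * v)}

/-- Euclidean Dirichlet improvable numbers: for some `c < 1` and all large `t` the lattice `Λ_x`
has a nonzero point in `diag (c t⁻¹, t) B(r2)`. -/
def DI2 : Set ℝ :=
  {x | ∃ c : ℝ, 0 < c ∧ c < 1 ∧ ∃ T : ℝ, ∀ t : ℝ, T ≤ t → 0 < t → Lam x ∩ Box c t ≠ {0}}

/-- Badly approximable numbers. -/
def BA : Set ℝ := {x | ∃ ε : ℝ, 0 < ε ∧ ∀ p q : ℤ, q ≠ 0 → ε ≤ |q * x - p| * |(q : ℝ)|}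

lemma r2_sq : r2 ^ 2 = 2 / Real.sqrt 3 := by
  unfold r2
  rw [Real.sq_sqrt (by positivity)]

end Pool.Agent.J4H53.DI
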