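import Mathlib

set_option autoImplicit false

/-!
# Lower bound for the Hausdorff dimension of the limit set of a separated tree of compact sets

(Adapted from `Pool.Agent.H389R2.Bs.Cantor`.)
-/

open Set

namespace Pool.Agent.J4H53.DI

section Tree

variable {M : ℕ} {T : ℕ → Set ℝ → Prop} {r : ℕ → ℝ}

/-- The branching hypothesis: each node of stage `n` has `M` children at mutual distance at
least `r n`. -/
def Branch (M : ℕ) (r : ℕ → ℝ) (T : ℕ → Set ℝ → Prop) : Prop :=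
  ∀ n I, T n I → ∃ c : Fin M → Set ℝ, (∀ d, T (n + 1) (c d)) ∧ (∀ d, c d ⊆ I) ∧
    ∀ d d', d ≠ d' → ∀ z ∈ c d, ∀ w ∈ c d', r n ≤ dist z w

/-- The chosen children of a node. -/
noncomputable def ch (hb : Branch M r T) (k : ℕ) (x : {I : Set ℝ // T k I}) (e : Fin M) :
    {I : Set ℝ // T (k + 1) I} :=
  ⟨(hb k x.1 x.2).choose e, (hb k x.1 x.2).choose_spec.1 e⟩

lemma ch_child (hb : Branch M r T) (k : ℕ) (x : {I : Set ℝ // T k I}) (e : Fin M) :
    (ch hb k x e).1 ⊆ x.1 := (hb k x.1 x.2).choose_spec.2.1 e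

lemma ch_sep (hb : Branch M r T) (k : ℕ) (x : {I : Set ℝ // T k I}) {e e' : Fin M} (h : e ≠ e') :
    ∀ z ∈ (ch hb k x e).1, ∀ w ∈ (ch hb k x e').1, r k ≤ dist z w :=
  (hb k x.1 x.2).choose_spec.2.2 e e' h

/-- The node reached by following a sequence of choices. -/
noncomputable def node {I0 : Set ℝ} (h0 : T 0 I0) (hb : Branch M r T) (d : ℕ → Fin M) :
    (k : ℕ) → {I : Set ℝ // T k I}
  | 0 => ⟨I0, h0⟩
  | k + 1 => ch hb k (node h0 hb d k) (d k)

lemma node_succ {I0 : Set ℝ} (h0 : T 0 I0) (hb : Branch M r T) (d : ℕ → Fin M) (k : ℕ) :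
    node h0 hb d (k + 1) = ch hb k (node h0 hb d k) (d k) := rfl

lemma node_child {I0 : Set ℝ} (h0 : T 0 I0) (hb : Branch M r T) (d : ℕ → Fin M) (k : ℕ) :
    (node h0 hb d (k + 1)).1 ⊆ (node h0 hb d k).1 := ch_child hb k _ _

lemma node_congr {I0 : Set ℝ} (h0 : T 0 I0) (hb : Branch M r T) {d d' : ℕ → Fin M} {n : ℕ}
    (h : ∀ i < n, d i = d' i) : node h0 hb d n = node h0 hb d' n := by
  induction n with
  | zero => rfl
  | succ n ih =>
    have h1 := ih (fun i hi => h i (Nat.lt_succ_of_lt hi))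
    have h2 := h n (Nat.lt_succ_self n)
    rw [node_succ, node_succ, h1, h2]

lemma node_sep {I0 : Set ℝ} (h0 : T 0 I0) (hb : Branch M r T) {d d' : ℕ → Fin M} {n : ℕ}
    (h : ∀ i < n, d i = d' i) (hn : d n ≠ d' n) :
    ∀ z ∈ (node h0 hb d (n + 1)).1, ∀ w ∈ (node h0 hb d' (n + 1)).1, r n ≤ dist z w := by
  have h1 := node_congr h0 hb h
  rw [node_succ, node_succ, ← h1]
  exact ch_sep hb n _ hn

lemma exists_point {I0 : Set ℝ} (hT : ∀ n I, T n I → IsCompact I ∧ I.Nonempty) (h0 : T 0 I0)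
    (hb : Branch M r T) (d : ℕ → Fin M) :
    ∃ z : ℝ, ∀ k, z ∈ (node h0 hb d k).1 := by
  have := IsCompact.nonempty_iInter_of_sequence_nonempty_isCompact_isClosed
    (fun k => (node h0 hb d k).1) (fun k => node_child h0 hb d k)
    (fun k => (hT k _ (node h0 hb d k).2).2) (hT 0 _ (node h0 hb d 0).2).1
    (fun k => (hT k _ (node h0 hb d k).2).1.isClosed)
  obtain ⟨z, hz⟩ := this
  exact ⟨z, fun k => Set.mem_iInter.1 hz k⟩

theorem le_dimH_of_tree {I0 : Set ℝ} {δ : NNReal} (hδ : 0 < δ) (hM : 2 ≤ M)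
    (hr : ∀ n, 0 < r n) {C : NNReal}
    (hMr : ∀ n, ((M : ℝ) ^ n)⁻¹ ≤ C * r n ^ (δ : ℝ))
    (hT : ∀ n I, T n I → IsCompact I ∧ I.Nonempty) (h0 : T 0 I0) (hb : Branch M r T) {S : Set ℝ}
    (hS : ∀ z : ℝ, (∃ I : ℕ → Set ℝ, ∀ k, T k (I k) ∧ z ∈ I k) → z ∈ S) :
    (δ : ENNReal) ≤ dimH S := by
  classical
  choose p hp using exists_point hT h0 hb
  -- separation
  have key : ∀ d d' : ℕ → Fin M, d ≠ d' → ∃ n : ℕ,
      |Real.ofDigits d - Real.ofDigits d'| ≤ ((M : ℝ) ^ n)⁻¹ ∧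
      r n ≤ dist (p d) (p d') := by
    intro d d' hdd
    have hex : ∃ n, d n ≠ d' n := Function.ne_iff.1 hdd
    refine ⟨Nat.find hex, Real.abs_ofDigits_sub_ofDigits_le (fun i hi => ?_), ?_⟩
    · have := Nat.find_min hex hi
      push Not at this
      exact this
    · refine node_sep h0 hb (fun i hi => ?_) (Nat.find_spec hex) _ (hp d _) _ (hp d' _)
      have := Nat.find_min hex hi
      push Not at this
      exact this
  have hinj : Function.Injective p := by
    intro d d' h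
    by_contra hne
    obtain ⟨n, -, h2⟩ := key d d' hne
    rw [h, dist_self] at h2
    have := hr n
    linarith
  have hMr0 : (0 : ℝ) < M := by exact_mod_cast (by omega : 0 < M)
  have hne : Nonempty (ℕ → Fin M) := ⟨fun _ => ⟨0, by omega⟩⟩
  set g : ℝ → ℝ := fun z => Real.ofDigits (Function.invFun p z) with hg
  have hgp : ∀ d, g (p d) = Real.ofDigits d := by
    intro d
    simp only [hg]
    rw [Function.leftInverse_invFun hinj d]
  have hbound : ∀ d d' : ℕ → Fin M,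
      |Real.ofDigits d - Real.ofDigits d'| ≤ C * (dist (p d) (p d')) ^ (δ : ℝ) := by
    intro d d'
    by_cases hdd : d = d'
    · subst hdd
      simp only [sub_self, abs_zero]
      positivity
    · obtain ⟨n, h1, h2⟩ := key d d' hdd
      refine h1.trans ((hMr n).trans ?_)
      have h3 : (r n) ^ (δ : ℝ) ≤ (dist (p d) (p d')) ^ (δ : ℝ) :=
        Real.rpow_le_rpow (hr n).le h2 (by positivity)
      exact mul_le_mul_of_nonneg_left h3 (by positivity)
  have hhold : HolderOnWith C δ g (Set.range p) := by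
    rintro _ ⟨d, rfl⟩ _ ⟨d', rfl⟩
    rw [hgp, hgp, edist_dist, edist_dist, Real.dist_eq]
    have h1 := hbound d d'
    calc ENNReal.ofReal |Real.ofDigits d - Real.ofDigits d'|
        ≤ ENNReal.ofReal (C * (dist (p d) (p d')) ^ (δ : ℝ)) := ENNReal.ofReal_le_ofReal h1
      _ = (C : ENNReal) * ENNReal.ofReal (dist (p d) (p d')) ^ (δ : ℝ) := by
          rw [ENNReal.ofReal_mul (by positivity),
            ENNReal.ofReal_rpow_of_nonneg dist_nonneg (by positivity)]
          congr 1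
          simp
  have h1 : dimH (g '' Set.range p) ≤ dimH (Set.range p) / (δ : ENNReal) :=
    hhold.dimH_image_le hδ
  have h2 : Set.Icc (0 : ℝ) 1 ⊆ g '' Set.range p := by
    intro t ht
    obtain ⟨d, -, hd⟩ := Real.ofDigits_SurjOn (b := M) (by omega) ht
    exact ⟨p d, ⟨d, rfl⟩, by rw [hgp, hd]⟩
  have h3 : dimH (Set.Icc (0 : ℝ) 1) = 1 := by
    have := Real.dimH_of_nonempty_interior (E := ℝ) (s := Set.Icc (0 : ℝ) 1)
      (by rw [interior_Icc]; exact ⟨1 / 2, by norm_num, by norm_num⟩)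
    simpa using this
  have h4 : (1 : ENNReal) ≤ dimH (Set.range p) / (δ : ENNReal) := by
    rw [← h3]; exact (dimH_mono h2).trans h1
  have h5 : Set.range p ⊆ S := by
    rintro _ ⟨d, rfl⟩
    exact hS _ ⟨fun k => (node h0 hb d k).1, fun k => ⟨(node h0 hb d k).2, hp d k⟩⟩
  refine le_trans ?_ (dimH_mono h5)
  have hδ0 : (δ : ENNReal) ≠ 0 := by exact_mod_cast hδ.ne'
  have := (ENNReal.le_div_iff_mul_le (Or.inl hδ0) (Or.inl ENNReal.coe_ne_top)).1 h4
  simpa using this

end Tree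

end Pool.Agent.J4H53.DI
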