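import Pool.Agent.J4H53.DI.Steer
import Pool.Agent.J4H53.DI.Tree
import Pool.Agent.J4H53.DI.AvDI

set_option autoImplicit false

/-!
# The set of Euclidean Dirichlet improvable numbers that are not badly approximable has full
dimension
-/

namespace Pool.Agent.J4H53.DI

open Set

/-- One step of the coding schedule; the state is `(cost, last, k)`. -/
def nxt (B : ℕ) (s : ℕ → ℕ) (n : ℕ) (w : ℕ × ℕ × ℕ) : ℕ × ℕ × ℕ :=
  if 2 * w.2.1 ≤ n + w.1 + 2 ∧ B * (w.1 + s w.2.2) ≤ n then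
    (w.1 + s w.2.2, n + 1 + (w.1 + s w.2.2), w.2.2 + 1)
  else w

/-- The coding schedule. -/
def st (B : ℕ) (s : ℕ → ℕ) : ℕ → ℕ × ℕ × ℕ
  | 0 => (0, 0, 0)
  | n + 1 => nxt B s n (st B s n)

lemma st_succ (B : ℕ) (s : ℕ → ℕ) (n : ℕ) : st B s (n + 1) = nxt B s n (st B s n) := rfl

lemma st_cost (B : ℕ) (s : ℕ → ℕ) (n : ℕ) : B * (st B s n).1 ≤ n := by
  induction n with
  | zero => simp [st]
  | succ n ih =>
    rw [st_succ, nxt]
    split_ifs with h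
    · exact le_trans h.2 (Nat.le_succ n)
    · omega

lemma st_last (B : ℕ) (s : ℕ → ℕ) (n : ℕ) : (st B s n).2.1 ≤ n + (st B s n).1 := by
  induction n with
  | zero => simp [st]
  | succ n ih =>
    rw [st_succ, nxt]
    split_ifs with h
    · simp only; omega
    · omega

lemma st_unbounded (B : ℕ) (s : ℕ → ℕ) (κ : ℕ) : ∃ n, κ ≤ (st B s n).2.2 := by
  induction κ with
  | zero => exact ⟨0, Nat.zero_le _⟩
  | succ κ ih =>
    obtain ⟨n0, hn0⟩ := ih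
    by_contra hcon
    push Not at hcon
    have hconst : ∀ t, st B s (n0 + t) = st B s n0 := by
      intro t
      induction t with
      | zero => rfl
      | succ t iht =>
        rw [← add_assoc, st_succ, nxt]
        split_ifs with h
        · exfalso
          have h1 := hcon (n0 + t + 1)
          rw [st_succ, nxt, if_pos h] at h1
          simp only at h1
          rw [iht] at h1
          omega
        · exact iht
    set w := st B s n0 with hw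
    set t := 2 * w.2.1 + B * (w.1 + s w.2.2) with ht
    have h1 := hcon (n0 + t + 1)
    rw [st_succ, hconst t, nxt, if_pos ⟨by omega, by omega⟩] at h1
    simp only at h1
    omega

/-- The nodes of the tree. -/
def TT (ε : ℝ) (R B : ℕ) (s : ℕ → ℕ) (n : ℕ) (I : Set ℝ) : Prop :=
  (∃ i : ℤ, I = Iv R (n + (st B s n).1) i) ∧ Nd ε R (n + (st B s n).1) I ∧
    RA R (st B s n).2.1 (n + (st B s n).1) I ∧
    ∀ κ < (st B s n).2.2, ∃ p q : ℤ, 0 < q ∧ ∀ x ∈ I, |x - p / q| ≤ 1 / ((κ + 1) * q ^ 2)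

lemma TT_branch {m : ℕ} (hm : 4 ≤ m) {R : ℕ} (hR : R = 4 ^ m) {ε ε' : ℝ} (hε0 : 0 < ε')
    (hεε' : 2 * ε ≤ ε') (hε' : ε' * (R : ℝ) ^ 4 * (8 * R + 8 * m + 1) ^ 2 ≤ 1)
    (hε2 : ε ≤ ((R : ℝ) ^ 2)⁻¹) (B : ℕ) :
    ∃ s : ℕ → ℕ, Branch (R / 8) (fun n => ((R : ℝ) ^ (n + (st B s n).1 + 1))⁻¹)
      (TT ε R B s) := by
  choose s hs using steer hm hR hε0 hεε' hε' hε2
  refine ⟨s, ?_⟩
  rintro n I ⟨⟨i, rfl⟩, hNd, hRA, hK⟩
  set w := st B s n with hw
  obtain ⟨c, hc1, hc2, hc3, hc4⟩ := step hm hR hε2 hNd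
  have hRA' : ∀ d, RA R w.2.1 (n + w.1 + 1) (Iv R (n + w.1 + 1) (c d)) := by
    intro d n1 h1 h2
    rcases Nat.lt_succ_iff_lt_or_eq.1 h2 with h3 | h3
    · intro p q hq hq2 x hx
      exact hRA n1 h1 h3 p q hq hq2 x (hc1 d hx)
    · rw [h3]; exact hc3 d
  by_cases hst : 2 * w.2.1 ≤ n + w.1 + 2 ∧ B * (w.1 + s w.2.2) ≤ n
  · -- steering
    have hnew : st B s (n + 1) = (w.1 + s w.2.2, n + 1 + (w.1 + s w.2.2), w.2.2 + 1) := by
      rw [st_succ, nxt, if_pos hst]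
    have hlast := st_last B s n
    rw [← hw] at hlast
    have hex := fun d => hs w.2.2 (n + w.1 + 1) w.2.1 (c d) (by omega) (by omega) (hc2 d) (hRA' d)
    choose e he1 he2 he3 using hex
    have hlev : n + w.1 + 1 + s w.2.2 = n + 1 + (w.1 + s w.2.2) := by omega
    refine ⟨fun d => Iv R (n + w.1 + 1 + s w.2.2) (e d), fun d => ?_, fun d => ?_, ?_⟩
    · unfold TT
      rw [hnew]
      simp only
      rw [← hlev]
      refine ⟨⟨e d, rfl⟩, he2 d, ?_, ?_⟩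
      · intro n1 h1 h2
        exfalso; omega
      · intro κ hκ
        rcases Nat.lt_succ_iff_lt_or_eq.1 hκ with h3 | h3
        · obtain ⟨p, q, hq, hpq⟩ := hK κ h3
          exact ⟨p, q, hq, fun x hx => hpq x (hc1 d (he1 d hx))⟩
        · obtain ⟨p, q, hq, hpq⟩ := he3 d
          refine ⟨p, q, hq, fun x hx => ?_⟩
          rw [h3]
          exact hpq x hx
    · exact (he1 d).trans (hc1 d)
    · intro d d' hdd z hz w' hw'
      exact hc4 d d' hdd z (he1 d hz) w' (he1 d' hw')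
  · -- no steering
    have hnew : st B s (n + 1) = w := by
      rw [st_succ, nxt, if_neg hst]
    have hlev : n + w.1 + 1 = n + 1 + w.1 := by omega
    refine ⟨fun d => Iv R (n + w.1 + 1) (c d), fun d => ?_, hc1, ?_⟩
    · unfold TT
      rw [hnew, ← hlev]
      refine ⟨⟨c d, rfl⟩, hc2 d, hRA' d, ?_⟩
      intro κ hκ
      obtain ⟨p, q, hq, hpq⟩ := hK κ hκ
      exact ⟨p, q, hq, fun x hx => hpq x (hc1 d hx)⟩
    · intro d d' hdd z hz w' hw'
      exact hc4 d d' hdd z hz w' hw'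

lemma mem_of_TT {ε : ℝ} (hε : 0 < ε) {R : ℕ} (hR : 2 ≤ R) {B : ℕ} {s : ℕ → ℕ} {z : ℝ}
    (hz : ∃ I : ℕ → Set ℝ, ∀ k, TT ε R B s k (I k) ∧ z ∈ I k) : z ∈ DI2 \ BA := by
  obtain ⟨I, hI⟩ := hz
  constructor
  · apply Av.mem_DI2 hε
    intro a b hF
    have hRr : (1 : ℝ) < R := by exact_mod_cast (by omega : 1 < R)
    obtain ⟨n, hn⟩ := pow_unbounded_of_one_lt ((R : ℝ) * a) hRr
    obtain ⟨⟨-, hNd, -, -⟩, hzI⟩ := hI n
    apply hNd z hzI a b hF
    have h1 : (R : ℤ) * a < (R : ℤ) ^ n := by exact_mod_cast hn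
    refine lt_of_lt_of_le h1 ?_
    exact pow_le_pow_right₀ (by exact_mod_cast (by omega : 1 ≤ R)) (by omega)
  · rintro ⟨ε0, hε0, hBA⟩
    obtain ⟨κ, hκ⟩ := exists_nat_gt (1 / ε0)
    obtain ⟨n, hn⟩ := st_unbounded B s (κ + 1)
    obtain ⟨⟨-, -, -, hK⟩, hzI⟩ := hI n
    obtain ⟨p, q, hq, hpq⟩ := hK κ (by omega)
    have h1 := hpq z hzI
    have h2 := hBA p q hq.ne'
    have hqr : (0 : ℝ) < q := by exact_mod_cast hq
    have h3 : |(q : ℝ) * z - p| * |(q : ℝ)| = |z - p / q| * (q : ℝ) ^ 2 := by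
      have e1 : (q : ℝ) * z - p = q * (z - p / q) := by field_simp
      rw [e1, abs_mul, abs_of_pos hqr]; ring
    have h4 : |z - p / q| * (q : ℝ) ^ 2 ≤ 1 / ((κ : ℝ) + 1) := by
      calc |z - p / q| * (q : ℝ) ^ 2 ≤ 1 / (((κ : ℝ) + 1) * q ^ 2) * (q : ℝ) ^ 2 :=
            mul_le_mul_of_nonneg_right h1 (by positivity)
        _ = 1 / ((κ : ℝ) + 1) := by field_simp
    have h5 : 1 / ((κ : ℝ) + 1) < ε0 := by
      rw [div_lt_iff₀ (by positivity)]
      rw [div_lt_iff₀ hε0] at hκ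
      nlinarith
    rw [h3] at h2
    linarith

theorem le_dimH_of_lt_one {δ : NNReal} (hδ : 0 < δ) (hδ1 : δ < 1) :
    (δ : ENNReal) ≤ dimH (DI2 \ BA) := by
  have hδr : (0 : ℝ) < δ := by exact_mod_cast hδ
  have hδr1 : (δ : ℝ) < 1 := by exact_mod_cast hδ1
  -- the parameter B
  obtain ⟨B, hB⟩ := exists_nat_gt (2 / (1 - (δ : ℝ)))
  have hB0 : (0 : ℝ) < B := lt_trans (div_pos (by norm_num) (by linarith)) hB
  have hB2 : 2 < (B : ℝ) * (1 - δ) := by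
    rwa [div_lt_iff₀ (by linarith)] at hB
  set δ2 : ℝ := (1 + δ) / 2 with hδ2
  -- the parameter m
  obtain ⟨m0, hm0⟩ := exists_nat_gt (2 / (1 - δ2))
  set m : ℕ := max 4 m0 with hmdef
  have hm : 4 ≤ m := le_max_left _ _
  have hm2 : 2 ≤ (m : ℝ) * (1 - δ2) := by
    have h1 : 0 < 1 - δ2 := by rw [hδ2]; linarith
    rw [div_lt_iff₀ h1] at hm0
    have h2 : (m0 : ℝ) ≤ m := by exact_mod_cast le_max_right 4 m0
    have := mul_le_mul_of_nonneg_right h2 h1.le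
    linarith
  set R : ℕ := 4 ^ m with hR
  have hR256 : 256 ≤ R := by
    have h1 : 4 ^ 4 ≤ 4 ^ m := Nat.pow_le_pow_right (by norm_num) hm
    rw [hR]; omega
  have hRr : (256 : ℝ) ≤ R := by exact_mod_cast hR256
  have hRr0 : (0 : ℝ) < R := by linarith
  have hM : (R : ℝ) ^ δ2 ≤ ((R / 8 : ℕ) : ℝ) := by
    have h8 : 8 ∣ R := by
      rw [hR]
      have : 4 ^ 2 ∣ 4 ^ m := pow_dvd_pow 4 (by omega)
      exact Dvd.dvd.trans (by norm_num) this
    rw [Nat.cast_div h8 (by norm_num)]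
    rw [le_div_iff₀ (by norm_num)]
    have h1 : (16 : ℝ) ≤ (R : ℝ) ^ (1 - δ2) := by
      have e1 : (R : ℝ) = (4 : ℝ) ^ (m : ℝ) := by rw [hR]; push_cast; rw [Real.rpow_natCast]
      rw [e1, ← Real.rpow_mul (by norm_num)]
      calc (16 : ℝ) = 4 ^ (2 : ℝ) := by norm_num
        _ ≤ _ := Real.rpow_le_rpow_of_exponent_le (by norm_num) hm2
    have h2 : (R : ℝ) ^ δ2 * (R : ℝ) ^ (1 - δ2) = R := by
      rw [← Real.rpow_add hRr0]; simp
    have h3 : 0 < (R : ℝ) ^ δ2 := Real.rpow_pos_of_pos hRr0 _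
    push_cast
    nlinarith
  -- the parameter ε
  set ε' : ℝ := 1 / ((R : ℝ) ^ 4 * (8 * R + 8 * m + 1) ^ 2) with hε'
  have hε'0 : 0 < ε' := by rw [hε']; positivity
  have hε'1 : ε' * (R : ℝ) ^ 4 * (8 * R + 8 * m + 1) ^ 2 ≤ 1 := by
    rw [hε']; field_simp; exact le_refl _
  have hε2 : ε' / 2 ≤ ((R : ℝ) ^ 2)⁻¹ := by
    rw [inv_eq_one_div, div_le_div_iff₀ (by norm_num) (by positivity)]
    have h1 : (R : ℝ) ^ 2 ≤ (R : ℝ) ^ 4 * (8 * R + 8 * m + 1) ^ 2 := by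
      have h2 : (R : ℝ) ^ 2 ≤ (R : ℝ) ^ 4 := pow_le_pow_right₀ (by linarith) (by norm_num)
      have h3 : (1 : ℝ) ≤ (8 * R + 8 * m + 1) ^ 2 := by
        apply one_le_pow₀
        have : (0 : ℝ) ≤ m := Nat.cast_nonneg m
        linarith
      calc (R : ℝ) ^ 2 ≤ (R : ℝ) ^ 4 * 1 := by linarith
        _ ≤ _ := mul_le_mul_of_nonneg_left h3 (by positivity)
    have h4 := mul_le_mul_of_nonneg_left h1 hε'0.le
    linarith
  obtain ⟨s, hs⟩ := TT_branch hm hR hε'0 (ε := ε' / 2) (by linarith) hε'1 hε2 B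
  have hT0 : TT (ε' / 2) R B s 0 (Iv R 0 0) := by
    refine ⟨⟨0, rfl⟩, ?_, ?_, ?_⟩
    · intro x _ a b hF hlt
      exfalso
      have e0 : (0 + (st B s 0).1) = 0 := rfl
      rw [e0, pow_zero] at hlt
      have := hF.1
      have h2 : (256 : ℤ) ≤ R := by exact_mod_cast hR256
      nlinarith
    · intro n _ h2
      exact absurd h2 (Nat.not_lt_zero _)
    · intro κ h
      exact absurd h (Nat.not_lt_zero _)
  obtain ⟨C, hC⟩ : ∃ C : NNReal, (C : ℝ) = (R : ℝ) ^ (δ : ℝ) :=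
    ⟨Real.toNNReal _, Real.coe_toNNReal _ (Real.rpow_nonneg hRr0.le _)⟩
  refine le_dimH_of_tree (M := R / 8) (T := TT (ε' / 2) R B s)
    (r := fun n => ((R : ℝ) ^ (n + (st B s n).1 + 1))⁻¹) (I0 := Iv R 0 0)
    (C := C) hδ (by omega) (fun n => by positivity)
    ?_ ?_ hT0 hs (fun z hz => mem_of_TT (half_pos hε'0) (by omega) hz)
  · intro n
    set w := st B s n with hw
    have hc := st_cost B s n
    rw [← hw] at hc
    have hMpos : (0 : ℝ) < ((R / 8 : ℕ) : ℝ) := lt_of_lt_of_le (Real.rpow_pos_of_pos hRr0 _) hM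
    have h1 : (((R : ℝ) ^ (n + w.1 + 1))⁻¹) ^ (δ : ℝ) =
        ((R : ℝ) ^ ((δ : ℝ) * (n + w.1)))⁻¹ * ((R : ℝ) ^ (δ : ℝ))⁻¹ := by
      rw [Real.inv_rpow (by positivity), ← Real.rpow_natCast, ← Real.rpow_mul hRr0.le,
        ← mul_inv, ← Real.rpow_add hRr0]
      congr 2
      push_cast; ring
    have h2 : (R : ℝ) ^ ((δ : ℝ) * (n + w.1)) ≤ (((R / 8 : ℕ) : ℝ)) ^ n := by
      have h3 : (δ : ℝ) * (n + w.1) ≤ δ2 * n := by
        have h4 : (B : ℝ) * w.1 ≤ n := by exact_mod_cast hc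
        have h5 : (δ : ℝ) * (B * w.1) ≤ 1 * n :=
          mul_le_mul hδr1.le h4 (by positivity) (by norm_num)
        have h6 : 2 * (δ * w.1) ≤ (1 - (δ : ℝ)) * n := by
          have h7 : B * (2 * (δ * w.1)) ≤ B * ((1 - (δ : ℝ)) * n) := by
            have h8 := mul_le_mul_of_nonneg_right hB2.le (Nat.cast_nonneg (α := ℝ) n)
            nlinarith
          exact le_of_mul_le_mul_left h7 hB0
        rw [hδ2]; linarith
      calc (R : ℝ) ^ ((δ : ℝ) * (n + w.1)) ≤ (R : ℝ) ^ (δ2 * n) :=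
            Real.rpow_le_rpow_of_exponent_le (by linarith) h3
        _ = ((R : ℝ) ^ δ2) ^ n := by rw [Real.rpow_mul hRr0.le, Real.rpow_natCast]
        _ ≤ _ := pow_le_pow_left₀ (Real.rpow_nonneg hRr0.le _) hM n
    have h9 : 0 < (R : ℝ) ^ (δ : ℝ) := Real.rpow_pos_of_pos hRr0 _
    rw [hC, h1]
    have h11 : (R : ℝ) ^ (δ : ℝ) * (((R : ℝ) ^ ((δ : ℝ) * (n + w.1)))⁻¹ * ((R : ℝ) ^ (δ : ℝ))⁻¹) =
        ((R : ℝ) ^ ((δ : ℝ) * (n + w.1)))⁻¹ := by
      field_simp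
    rw [h11]
    exact inv_anti₀ (Real.rpow_pos_of_pos hRr0 _) h2
  · rintro n I ⟨⟨i, rfl⟩, -⟩
    refine ⟨isCompact_Icc, ?_⟩
    unfold Iv
    rw [Set.nonempty_Icc]
    apply mul_le_mul_of_nonneg_right _ (by positivity)
    linarith

theorem dimH_DI2_diff_BA : dimH (DI2 \ BA) = 1 := by
  apply le_antisymm
  · calc dimH (DI2 \ BA) ≤ dimH (Set.univ : Set ℝ) := dimH_mono (Set.subset_univ _)
      _ = 1 := Real.dimH_univ
  · apply le_of_forall_lt
    intro c hc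
    obtain ⟨δ, hδ1, hδ2⟩ := ENNReal.lt_iff_exists_nnreal_btwn.1 hc
    have h1 : δ < 1 := by exact_mod_cast hδ2
    have h0 : 0 < δ := by
      have : (0 : ENNReal) < δ := lt_of_le_of_lt bot_le hδ1
      exact_mod_cast this
    exact lt_of_lt_of_le hδ1 (le_dimH_of_lt_one h0 h1)

end Pool.Agent.J4H53.DI
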