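import Mathlib

set_option autoImplicit false

/-!
# Binary forms of discriminant -3 and rational points

`IsF a b` : there is a positive definite form `a X^2 + b X Y + c Y^2` of discriminant `-3`.
-/

namespace Pool.Agent.J4H53.DI

/-- `a > 0` and `b ^ 2 + 3 = 4 a c` for an integer `c`. -/
def IsF (a b : ℤ) : Prop := 0 < a ∧ ∃ c : ℤ, b ^ 2 + 3 = 4 * a * c

lemma IsF.odd {a b : ℤ} (h : IsF a b) : b % 2 = 1 := by
  obtain ⟨_, c, hc⟩ := h
  rcases Int.emod_two_eq_zero_or_one b with h | h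
  · exfalso
    obtain ⟨k, rfl⟩ : ∃ k, b = 2 * k := ⟨b / 2, by omega⟩
    have : (2 * k) ^ 2 + 3 = 4 * (k ^ 2) + 3 := by ring
    rw [this, mul_assoc] at hc
    generalize k ^ 2 = u at hc
    generalize a * c = v at hc
    omega
  · exact h

/-- Two different forms of comparable size have separated roots. -/
lemma IsF.sep {a b a' b' : ℤ} (h : IsF a b) (h' : IsF a' b') (hne : ¬(a = a' ∧ b = b'))
    (h1 : a ≤ a') (h2 : a' ≤ 2 * a) : 4 * a ^ 2 ≤ (a' * b - a * b') ^ 2 := by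
  have ho := h.odd
  have ho' := h'.odd
  obtain ⟨ha, c, hc⟩ := h
  obtain ⟨ha', c', hc'⟩ := h'
  set D := 2 * a * c' + 2 * a' * c - b * b' with hD
  have key : 2 * a * a' * D = (a' * b - a * b') ^ 2 + 3 * (a ^ 2 + a' ^ 2) := by
    rw [hD]
    linear_combination (-a' ^ 2) * hc + (-a ^ 2) * hc'
  have hodd : D % 2 = 1 := by
    obtain ⟨k, rfl⟩ : ∃ k, b = 2 * k + 1 := ⟨b / 2, by omega⟩
    obtain ⟨k', rfl⟩ : ∃ k', b' = 2 * k' + 1 := ⟨b' / 2, by omega⟩
    have : D = 2 * (a * c' + a' * c - 2 * k * k' - k - k' - 1) + 1 := by rw [hD]; ring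
    omega
  have haa : 0 < a * a' := mul_pos ha ha'
  have h3 : 3 ≤ D := by
    by_contra hlt
    push Not at hlt
    nlinarith [sq_nonneg (a' * b - a * b'), sq_nonneg (a - a')]
  have h5 : 5 ≤ D := by
    by_contra hlt
    have h3' : D = 3 := by omega
    rw [h3'] at key
    have e1 : (a' * b - a * b') ^ 2 + 3 * (a - a') ^ 2 = 0 := by nlinarith
    have e2 : a - a' = 0 := by
      have : (a - a') ^ 2 = 0 := by nlinarith [sq_nonneg (a' * b - a * b'), sq_nonneg (a - a')]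
      exact pow_eq_zero_iff (two_ne_zero) |>.1 this
    have e3 : a' * b - a * b' = 0 := by
      have : (a' * b - a * b') ^ 2 = 0 := by
        nlinarith [sq_nonneg (a' * b - a * b'), sq_nonneg (a - a')]
      exact pow_eq_zero_iff (two_ne_zero) |>.1 this
    have e4 : a = a' := by omega
    subst e4
    apply hne
    refine ⟨rfl, ?_⟩
    have : a * (b - b') = 0 := by linear_combination e3
    rcases mul_eq_zero.1 this with h | h
    · omega
    · omega
  nlinarith [mul_nonneg (sub_nonneg.2 h1) (by linarith : 0 ≤ 7 * a - 3 * a'),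
    mul_le_mul_of_nonneg_left h5 haa.le]

/-- The value of the form at an integer point, and the basic identity. -/
lemma IsF.val {a b : ℤ} (h : IsF a b) {p q : ℤ} (hq : 0 < q) :
    ∃ F : ℤ, 1 ≤ F ∧ 4 * a * F = (2 * a * p + b * q) ^ 2 + 3 * q ^ 2 := by
  obtain ⟨ha, c, hc⟩ := h
  refine ⟨a * p ^ 2 + b * p * q + c * q ^ 2, ?_, ?_⟩
  · have key : 4 * a * (a * p ^ 2 + b * p * q + c * q ^ 2) =
        (2 * a * p + b * q) ^ 2 + 3 * q ^ 2 := by linear_combination (-q ^ 2) * hc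
    by_contra hlt
    push Not at hlt
    have h1 : a * p ^ 2 + b * p * q + c * q ^ 2 ≤ 0 := by omega
    have m1 := sq_nonneg (2 * a * p + b * q)
    have m2 := pow_pos hq 2
    have m3 := mul_nonneg ha.le (neg_nonneg.2 h1)
    linarith
  · linear_combination (-q ^ 2) * hc

lemma IsF.cusp1 {a b : ℤ} (h : IsF a b) {p q : ℤ} (hq : 0 < q) :
    4 * a - 3 * q ^ 2 ≤ (2 * a * p + b * q) ^ 2 := by
  obtain ⟨F, hF, hk⟩ := h.val (p := p) hq
  have ha := h.1
  have := mul_le_mul_of_nonneg_left hF ha.le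
  linarith

/-- Neighbours `p / q` of `p0 / q0`, with `q ≥ 4 q0`, are far from all centres with `a ≥ q0 ^ 2`. -/
lemma IsF.cusp2 {a b : ℤ} (h : IsF a b) {p q p0 q0 : ℤ} (hq0 : 0 < q0) (hq : 4 * q0 ≤ q)
    (hdet : (p * q0 - p0 * q) ^ 2 = 1) (ha0 : q0 ^ 2 ≤ a) :
    q ^ 2 ≤ 25 * (2 * a * p + b * q) ^ 2 := by
  have hqp : 0 < q := by linarith
  by_cases hbig : q ^ 2 ≤ a
  · have := h.cusp1 (p := p) hqp
    have := sq_nonneg q
    linarith
  push Not at hbig
  obtain ⟨ha, c, hc⟩ := h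
  set F0 := a * p0 ^ 2 + b * p0 * q0 + c * q0 ^ 2 with hF0
  set Fj := a * p ^ 2 + b * p * q + c * q ^ 2 with hFj
  set B := 2 * a * p * p0 + b * (p * q0 + p0 * q) + 2 * c * q * q0 with hB
  set U := 2 * a * p + b * q with hU
  have e0 : 4 * a * F0 = (2 * a * p0 + b * q0) ^ 2 + 3 * q0 ^ 2 := by
    rw [hF0]; linear_combination (-q0 ^ 2) * hc
  have eB : B ^ 2 + 3 = 4 * F0 * Fj := by
    rw [hB, hF0, hFj]
    linear_combination (p * q0 - p0 * q) ^ 2 * hc - 3 * hdet
  have ea : a = F0 * q ^ 2 - B * q * q0 + Fj * q0 ^ 2 := by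
    rw [hB, hF0, hFj]
    linear_combination (-a) * hdet
  have eU : U * (p * q0 - p0 * q) = 2 * Fj * q0 - B * q := by
    rw [hU, hFj, hB]; ring
  have eU2 : U ^ 2 = (2 * Fj * q0 - B * q) ^ 2 := by
    rw [← eU, mul_pow, hdet, mul_one]
  have hF0pos : 1 ≤ F0 := by
    by_contra hlt
    push Not at hlt
    have h1 : F0 ≤ 0 := by omega
    have m1 := sq_nonneg (2 * a * p0 + b * q0)
    have m2 := pow_pos hq0 2
    have m3 := mul_nonneg ha.le (neg_nonneg.2 h1)
    linarith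
  rcases (by omega : F0 = 1 ∨ 2 ≤ F0) with hF1 | hF2
  · rw [hF1] at eB ea
    have hBo : B % 2 = 1 := IsF.odd (a := 1) (b := B) ⟨one_pos, Fj, by linarith⟩
    set E := 2 * q - B * q0 with hE
    have e4 : 4 * a = E ^ 2 + 3 * q0 ^ 2 := by rw [hE]; linear_combination 4 * ea - q0 ^ 2 * eB
    have e5 : 4 * q0 ^ 2 * U ^ 2 = (3 * q0 ^ 2 - (B * q0) * E) ^ 2 := by
      rw [eU2, hE]
      have : 2 * (2 * Fj * q0 - B * q) = (B ^ 2 + 3) * q0 - 2 * B * q := by
        rw [eB]; ring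
      have e6 : 4 * q0 ^ 2 * (2 * Fj * q0 - B * q) ^ 2 =
          q0 ^ 2 * (2 * (2 * Fj * q0 - B * q)) ^ 2 := by ring
      rw [e6, this]; ring
    have hE2 : q0 ^ 2 ≤ E ^ 2 := by linarith
    have hE3 : q0 ≤ E ∨ E ≤ -q0 := by
      rcases le_or_gt 0 E with h0 | h0
      · left; exact abs_le_of_sq_le_sq' hE2 h0 |>.2
      · right
        have := abs_le_of_sq_le_sq' (a := q0) (b := -E) (by rw [neg_sq]; exact hE2)
          (by linarith) |>.2
        linarith
    have hG : B * q0 = 2 * q - E := by rw [hE]; ring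
    have main : q0 * q ≤ |3 * q0 ^ 2 - (B * q0) * E| := by
      rw [hG]
      rcases hE3 with h1 | h1
      · rcases (by omega : 1 ≤ B ∨ B ≤ -1) with hB1 | hB1
        · have h2 : q0 ≤ 2 * q - E := by rw [← hG]; exact le_mul_of_one_le_left hq0.le hB1
          refine le_trans ?_ (neg_le_abs _)
          have m1 := mul_nonneg (sub_nonneg.2 h1) (sub_nonneg.2 h2)
          have m2 := mul_le_mul_of_nonneg_left hq hq0.le
          linarith
        · have h2 : 2 * q - E ≤ -q0 := by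
            rw [← hG]
            have := mul_le_mul_of_nonneg_right hB1 hq0.le
            linarith
          refine le_trans ?_ (le_abs_self _)
          have m1 := mul_nonneg (by linarith : 0 ≤ E) (by linarith : 0 ≤ -q0 - (2 * q - E))
          have m2 := mul_nonneg hq0.le (by linarith : 0 ≤ E - q0 - 2 * q)
          have m3 := mul_pos hq0 hqp
          have m4 := sq_nonneg q0
          linarith
      · refine le_trans ?_ (le_abs_self _)
        have m1 := mul_nonneg (by linarith : 0 ≤ -q0 - E) (by linarith : 0 ≤ 2 * q - E)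
        have m2 := mul_nonneg hq0.le (by linarith : 0 ≤ 2 * q - E - q0 - 2 * q)
        have m3 := mul_pos hq0 hqp
        have m4 := sq_nonneg q0
        linarith
    have h7 : (q0 * q) ^ 2 ≤ 4 * q0 ^ 2 * U ^ 2 := by
      rw [e5, ← sq_abs (3 * q0 ^ 2 - B * q0 * E)]
      exact pow_le_pow_left₀ (by positivity) main 2
    have h8 : q0 ^ 2 * q ^ 2 ≤ q0 ^ 2 * (25 * U ^ 2) := by
      have := sq_nonneg (q0 * U)
      linarith [mul_pow q0 q 2, mul_pow q0 U 2]
    exact le_of_mul_le_mul_left h8 (by positivity)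
  · set V := 2 * a * p0 + b * q0 with hV
    have hV2 : 8 * a - 3 * q0 ^ 2 ≤ V ^ 2 := by
      have := mul_le_mul_of_nonneg_left hF2 ha.le
      linarith
    have eUV : q0 * U = q * V + 2 * a * (p * q0 - p0 * q) := by rw [hU, hV]; ring
    have h1 : (10 * a + q * q0) ^ 2 ≤ (5 * q * V) ^ 2 := by
      have h2 : (a * q) * (4 * q0) ≤ (a * q) * q :=
        mul_le_mul_of_nonneg_left hq (mul_pos ha hqp).le
      have h3 : q ^ 2 * q0 ^ 2 ≤ q ^ 2 * a := mul_le_mul_of_nonneg_left ha0 (by positivity)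
      have h4 : a * a ≤ a * q ^ 2 := mul_le_mul_of_nonneg_left hbig.le ha.le
      have h5 : q ^ 2 * (8 * a - 3 * q0 ^ 2) ≤ q ^ 2 * V ^ 2 :=
        mul_le_mul_of_nonneg_left hV2 (by positivity)
      have h6 : 0 ≤ a * q ^ 2 := by positivity
      have e1 : (10 * a + q * q0) ^ 2 = 100 * (a * a) + 5 * ((a * q) * (4 * q0)) + q ^ 2 * q0 ^ 2 := by
        ring
      have e2 : (5 * q * V) ^ 2 = 25 * (q ^ 2 * V ^ 2) := by ring
      have e3 : q ^ 2 * (8 * a - 3 * q0 ^ 2) = 8 * (a * q ^ 2) - 3 * (q ^ 2 * q0 ^ 2) := by ring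
      have e4 : (a * q) * q = a * q ^ 2 := by ring
      have e5 : q ^ 2 * a = a * q ^ 2 := by ring
      rw [e1, e2]
      linarith
    have h2 := sq_le_sq.1 h1
    have hσ : |p * q0 - p0 * q| = 1 := by
      have h9 : |p * q0 - p0 * q| ^ 2 = 1 := by rw [sq_abs]; exact hdet
      nlinarith [abs_nonneg (p * q0 - p0 * q)]
    have h3 : |5 * q * V| - 10 * a ≤ |5 * (q0 * U)| := by
      have e9 : 5 * q * V = 5 * (q0 * U) - 10 * a * (p * q0 - p0 * q) := by
        linear_combination (-5) * eUV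
      have := abs_sub (5 * (q0 * U)) (10 * a * (p * q0 - p0 * q))
      rw [abs_mul (10 * a), hσ, mul_one, abs_of_pos (by linarith : 0 < 10 * a)] at this
      rw [e9]; linarith
    rw [abs_of_pos (by positivity : 0 < 10 * a + q * q0)] at h2
    have h4 : q * q0 ≤ |5 * (q0 * U)| := by linarith
    have h5 : (q * q0) ^ 2 ≤ (5 * (q0 * U)) ^ 2 := by
      rw [← sq_abs (5 * (q0 * U))]
      exact pow_le_pow_left₀ (by positivity) h4 2
    have h6 : q0 ^ 2 * q ^ 2 ≤ q0 ^ 2 * (25 * U ^ 2) := by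
      have e1 : (5 * (q0 * U)) ^ 2 = q0 ^ 2 * (25 * U ^ 2) := by ring
      have e2 : (q * q0) ^ 2 = q0 ^ 2 * q ^ 2 := by ring
      rw [← e1, ← e2]; exact h5
    exact le_of_mul_le_mul_left h6 (by positivity)

end Pool.Agent.J4H53.DI
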