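import Pool.Agent.J4H53.DI.Step

set_option autoImplicit false

/-!
# Dirichlet approximants, neighbours and the pigeonhole argument
-/

namespace Pool.Agent.J4H53.DI

open Set

/-- A good Dirichlet approximant with denominator in a controlled range. -/
lemma approx {m R N n' : ℕ} (hR : R = 4 ^ m) (hm : 1 ≤ m) (hn : n' < N) (hn2 : 2 * n' ≤ N + 1)
    {x0 : ℝ} (hRA : ∀ n, n' ≤ n → n < N → ∀ p q : ℤ, 0 < q → q ^ 2 < (R : ℤ) ^ n →
      ((R : ℝ) ^ (n + 1))⁻¹ ≤ |x0 - p / q|) :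
    ∃ p0 q0 : ℤ, IsCoprime p0 q0 ∧ 0 < q0 ∧ (R : ℤ) ^ N ≤ R * q0 ^ 2 ∧
      q0 ^ 2 ≤ (R : ℤ) ^ (N + 3) ∧ |x0 - p0 / q0| ≤ ((R : ℝ) ^ (N + 1))⁻¹ := by
  have hS0 : 0 < (2 ^ m) ^ (N + 3) := by positivity
  obtain ⟨w, hw1, hw2⟩ := Real.exists_rat_abs_sub_le_and_den_le x0 hS0
  set Q : ℕ := (2 ^ m) ^ (N + 3) with hQ
  have hRS : (R : ℝ) = (2 ^ m) ^ 2 := by
    rw [hR]; push_cast; rw [← pow_mul, mul_comm, pow_mul]; norm_num
  have hQ2 : (Q : ℝ) ^ 2 = (R : ℝ) ^ (N + 3) := by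
    rw [hRS, hQ]; push_cast; ring
  have hR1 : (1 : ℝ) < R := by
    rw [hR]; push_cast; exact one_lt_pow₀ (by norm_num) (by omega)
  have hR0 : (0 : ℝ) < R := by linarith
  have hq0 : (0 : ℤ) < (w.den : ℤ) := by exact_mod_cast w.den_pos
  have hq0r : (0 : ℝ) < (w.den : ℝ) := by exact_mod_cast w.den_pos
  have hq1r : (1 : ℝ) ≤ (w.den : ℝ) := by exact_mod_cast w.den_pos
  have hQr : (0 : ℝ) < Q := by exact_mod_cast hS0
  have hwr : (w : ℝ) = (w.num : ℝ) / (w.den : ℝ) := by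
    exact_mod_cast (Rat.num_div_den w).symm
  have hbd : |x0 - (w.num : ℝ) / ((w.den : ℤ) : ℝ)| < 1 / (Q * w.den) := by
    rw [Int.cast_natCast, ← hwr]
    refine lt_of_le_of_lt hw1 ?_
    apply one_div_lt_one_div_of_lt (by positivity)
    nlinarith
  have hden2 : ((w.den : ℤ)) ^ 2 ≤ (R : ℤ) ^ (N + 3) := by
    have h1 : (w.den : ℝ) ≤ Q := by exact_mod_cast hw2
    have h2 : (w.den : ℝ) ^ 2 ≤ (R : ℝ) ^ (N + 3) := by
      rw [← hQ2]; exact pow_le_pow_left₀ hq0r.le h1 2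
    exact_mod_cast h2
  have hlow : (R : ℤ) ^ N ≤ R * (w.den : ℤ) ^ 2 := by
    by_contra hcon
    push Not at hcon
    obtain ⟨N1, rfl⟩ : ∃ N1, N = N1 + 1 := ⟨N - 1, by omega⟩
    have hRz : (0 : ℤ) < R := by exact_mod_cast hR0
    have h1 : (w.den : ℤ) ^ 2 < (R : ℤ) ^ N1 := by
      have e1 : (R : ℤ) ^ (N1 + 1) = R * (R : ℤ) ^ N1 := pow_succ' _ _
      rw [e1] at hcon
      exact lt_of_mul_lt_mul_left hcon hRz.le
    -- minimal n ≥ n' with den^2 < R^n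
    have hex : ∃ n, n' ≤ n ∧ (w.den : ℤ) ^ 2 < (R : ℤ) ^ n := ⟨N1, by omega, h1⟩
    classical
    set n := Nat.find hex with hndef
    obtain ⟨hn1, hnlt⟩ := Nat.find_spec hex
    rw [← hndef] at hn1 hnlt
    have hnN : n ≤ N1 := Nat.find_min' hex ⟨by omega, h1⟩
    have h2 := hRA n hn1 (by omega) w.num w.den hq0 hnlt
    have h3 : ((R : ℝ) ^ (n + 1))⁻¹ < 1 / (Q * w.den) := lt_of_le_of_lt h2 hbd
    have h4 : (Q * w.den : ℝ) < (R : ℝ) ^ (n + 1) := by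
      rw [inv_eq_one_div] at h3
      exact (one_div_lt_one_div (by positivity) (by positivity)).1 h3
    have h5 : (R : ℝ) ^ (N1 + 4) * (w.den : ℝ) ^ 2 < (R : ℝ) ^ (2 * n + 2) := by
      have h6 : (Q * w.den : ℝ) ^ 2 < ((R : ℝ) ^ (n + 1)) ^ 2 :=
        pow_lt_pow_left₀ h4 (by positivity) (by norm_num)
      rw [mul_pow, hQ2, ← pow_mul] at h6
      have e1 : (n + 1) * 2 = 2 * n + 2 := by ring
      rw [e1] at h6
      exact h6
    rcases hn1.eq_or_lt with hnn | hnn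
    · rw [← hnn] at h5
      have h6 : (R : ℝ) ^ (N1 + 4) < (R : ℝ) ^ (2 * n' + 2) := by
        refine lt_of_le_of_lt ?_ h5
        have : (1 : ℝ) ≤ (w.den : ℝ) ^ 2 := one_le_pow₀ hq1r
        nlinarith [pow_pos hR0 (N1 + 4)]
      have := (pow_lt_pow_iff_right₀ hR1).1 h6
      omega
    · have h7 : ¬ (n' ≤ n - 1 ∧ (w.den : ℤ) ^ 2 < (R : ℤ) ^ (n - 1)) :=
        Nat.find_min hex (by omega)
      have h8 : (R : ℤ) ^ (n - 1) ≤ (w.den : ℤ) ^ 2 := by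
        by_contra h9
        push Not at h9
        exact h7 ⟨by omega, h9⟩
      have h9 : (R : ℝ) ^ (n - 1) ≤ (w.den : ℝ) ^ 2 := by exact_mod_cast h8
      have h10 : (R : ℝ) ^ (N1 + 4 + (n - 1)) < (R : ℝ) ^ (2 * n + 2) := by
        rw [pow_add]
        refine lt_of_le_of_lt ?_ h5
        exact mul_le_mul_of_nonneg_left h9 (by positivity)
      have := (pow_lt_pow_iff_right₀ hR1).1 h10
      omega
  refine ⟨w.num, w.den, ?_, hq0, hlow, hden2, ?_⟩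
  · rw [Int.isCoprime_iff_gcd_eq_one]
    exact w.reduced
  · refine hbd.le.trans ?_
    rw [one_div]
    apply inv_anti₀ (by positivity)
    have h1 : (R : ℝ) ^ N ≤ R * (w.den : ℝ) ^ 2 := by exact_mod_cast hlow
    have h2 : ((R : ℝ) ^ (N + 1)) ^ 2 ≤ (Q * w.den : ℝ) ^ 2 := by
      rw [mul_pow, hQ2]
      have e1 : ((R : ℝ) ^ (N + 1)) ^ 2 = (R : ℝ) ^ (N + 2) * (R : ℝ) ^ N := by ring
      have e2 : (R : ℝ) ^ (N + 3) * (w.den : ℝ) ^ 2 =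
        (R : ℝ) ^ (N + 2) * (R * (w.den : ℝ) ^ 2) := by ring
      rw [e1, e2]
      exact mul_le_mul_of_nonneg_left h1 (by positivity)
    exact abs_le_of_sq_le_sq' h2 (by positivity) |>.2

lemma exists_nb {p0 q0 : ℤ} (hc : IsCoprime p0 q0) (hq : 0 < q0) :
    ∃ p1 q1 : ℤ, p1 * q0 - p0 * q1 = 1 ∧ 0 ≤ q1 ∧ q1 < q0 := by
  obtain ⟨u, v, huv⟩ := hc
  refine ⟨v - ((-u) / q0) * p0, (-u) % q0, ?_, Int.emod_nonneg _ hq.ne', Int.emod_lt_of_pos _ hq⟩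
  have := Int.emod_add_mul_ediv (-u) q0
  have h2 : (-u) % q0 = -u - q0 * (-u / q0) := by linarith
  rw [h2]
  linear_combination huv

/-- Pigeonhole: some neighbour avoids all forms in the zone. -/
lemma exists_good {m R N : ℕ} (hm : 4 ≤ m) (hR : R = 4 ^ m) {ε' : ℝ} (hε0 : 0 < ε')
    (hε' : ε' * (R : ℝ) ^ 4 * (8 * R + 8 * m + 1) ^ 2 ≤ 1) {p0 q0 p1 q1 : ℤ} (hq0 : 0 < q0)
    (hdet : p1 * q0 - p0 * q1 = 1) (hq1 : 0 ≤ q1) (hq1' : q1 < q0)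
    (hup : q0 ^ 2 ≤ (R : ℤ) ^ (N + 3)) :
    ∃ j : ℕ, 8 * R ≤ j ∧ j ≤ 8 * R + 8 * m ∧ ∀ a b : ℤ, IsF a b → (R : ℤ) ^ N ≤ R * a →
      a < q0 ^ 2 → ε' ≤ |2 * a * (((j * p0 + p1 : ℤ) : ℝ) / ((j * q0 + q1 : ℤ) : ℝ)) + b| := by
  by_contra hcon
  push Not at hcon
  have hR1 : 1 < R := by rw [hR]; exact Nat.one_lt_pow (by omega) (by norm_num)
  have hRr : (1 : ℝ) < R := by exact_mod_cast hR1
  have hRr0 : (0 : ℝ) < R := by linarith
  have hRz : (0 : ℤ) < R := by omega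
  have hmR : 8 * m ≤ R := by
    have := card_aux hm
    rw [← hR] at this
    omega
  have hmRr : 8 * (m : ℝ) ≤ R := by exact_mod_cast hmR
  have hq0r : (0 : ℝ) < q0 := by exact_mod_cast hq0
  -- choose killing forms
  have hch : ∀ t : ℕ, ∃ a b : ℤ, ∃ k : ℕ, t ∈ Finset.range (8 * m + 1) →
      IsF a b ∧ k < 8 * m ∧ 2 ^ k * (R : ℤ) ^ N ≤ R * a ∧ R * a < 2 ^ (k + 1) * (R : ℤ) ^ N ∧
      a < q0 ^ 2 ∧ |2 * a * ((((8 * R + t : ℕ) * p0 + p1 : ℤ) : ℝ) /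
        (((8 * R + t : ℕ) * q0 + q1 : ℤ) : ℝ)) + b| < ε' := by
    intro t
    by_cases ht : t ∈ Finset.range (8 * m + 1)
    · rw [Finset.mem_range] at ht
      obtain ⟨a, b, hF, h1, h2, h3⟩ := hcon (8 * R + t) (by omega) (by omega)
      have h4 : R * a < 2 ^ (8 * m) * (R : ℤ) ^ N := by
        have e1 : (2 : ℤ) ^ (8 * m) = (R : ℤ) ^ 4 := by
          rw [hR]; push_cast
          rw [show (4 : ℤ) = 2 ^ 2 by norm_num, ← pow_mul, ← pow_mul]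
          congr 1; ring
        rw [e1, ← pow_add]
        calc (R : ℤ) * a < R * q0 ^ 2 := mul_lt_mul_of_pos_left h2 hRz
          _ ≤ R * (R : ℤ) ^ (N + 3) := mul_le_mul_of_nonneg_left hup hRz.le
          _ = (R : ℤ) ^ (4 + N) := by ring
      obtain ⟨k, hk, h5, h6⟩ := exists_block h1 h4
      exact ⟨a, b, k, fun _ => ⟨hF, hk, h5, h6, h2, h3⟩⟩
    · exact ⟨0, 0, 0, fun h => absurd h ht⟩
  choose a b k hk using hch
  obtain ⟨t, ht, t', ht', htt, hkk⟩ := Finset.exists_ne_map_eq_of_card_lt_of_maps_to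
    (s := Finset.range (8 * m + 1)) (t := Finset.range (8 * m)) (by simp)
    (f := k) (fun t ht => Finset.mem_range.2 (hk t ht).2.1)
  obtain ⟨hF, -, h1, h2, h3, h4⟩ := hk t ht
  obtain ⟨hF', -, h1', h2', h3', h4'⟩ := hk t' ht'
  rw [Finset.mem_range] at ht ht'
  rw [← hkk] at h1' h2'
  set Q : ℝ := (8 * R + t) * q0 + q1 with hQ
  set Q' : ℝ := (8 * R + t') * q0 + q1 with hQ'
  set P : ℝ := (8 * R + t) * p0 + p1 with hP
  set P' : ℝ := (8 * R + t') * p0 + p1 with hP'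
  have eP : (((8 * R + t : ℕ) * p0 + p1 : ℤ) : ℝ) = P := by rw [hP]; push_cast; ring
  have eP' : (((8 * R + t' : ℕ) * p0 + p1 : ℤ) : ℝ) = P' := by rw [hP']; push_cast; ring
  have eQ : (((8 * R + t : ℕ) * q0 + q1 : ℤ) : ℝ) = Q := by rw [hQ]; push_cast; ring
  have eQ' : (((8 * R + t' : ℕ) * q0 + q1 : ℤ) : ℝ) = Q' := by rw [hQ']; push_cast; ring
  rw [eP, eQ] at h4
  rw [eP', eQ'] at h4'
  have hq1r : (0 : ℝ) ≤ q1 := by exact_mod_cast hq1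
  have hq1r' : (q1 : ℝ) < q0 := by exact_mod_cast hq1'
  have ht0 : (0 : ℝ) ≤ t := Nat.cast_nonneg t
  have ht0' : (0 : ℝ) ≤ t' := Nat.cast_nonneg t'
  have htm : (t : ℝ) ≤ 8 * m := by exact_mod_cast (by omega : t ≤ 8 * m)
  have htm' : (t' : ℝ) ≤ 8 * m := by exact_mod_cast (by omega : t' ≤ 8 * m)
  have hQlo : 8 * R * q0 ≤ Q := by
    rw [hQ]; have := mul_nonneg ht0 hq0r.le; linarith
  have hQlo' : 8 * R * q0 ≤ Q' := by
    rw [hQ']; have := mul_nonneg ht0' hq0r.le; linarith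
  set J : ℝ := 8 * R + 8 * m + 1 with hJ
  have hQhi : Q ≤ J * q0 := by
    rw [hQ, hJ]; have := mul_le_mul_of_nonneg_right htm hq0r.le; linarith
  have hQhi' : Q' ≤ J * q0 := by
    rw [hQ', hJ]; have := mul_le_mul_of_nonneg_right htm' hq0r.le; linarith
  have hJ8 : 8 ≤ J := by
    rw [hJ]
    have : (0 : ℝ) ≤ m := Nat.cast_nonneg m
    linarith
  have hJ0 : 0 < J := by linarith
  have hQ0 : 0 < Q := lt_of_lt_of_le (by positivity) hQlo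
  have hQ0' : 0 < Q' := lt_of_lt_of_le (by positivity) hQlo'
  have hdetr : (p1 : ℝ) * q0 - p0 * q1 = 1 := by exact_mod_cast hdet
  have hdiff : P / Q - P' / Q' = ((t' : ℝ) - t) / (Q * Q') := by
    rw [div_sub_div _ _ hQ0.ne' hQ0'.ne']
    congr 1
    rw [hP, hP', hQ, hQ']
    linear_combination ((t' : ℝ) - t) * hdetr
  have htt1 : (1 : ℝ) ≤ |(t' : ℝ) - t| := by
    have : (1 : ℤ) ≤ |(t' : ℤ) - t| := Int.one_le_abs (by omega)
    exact_mod_cast this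
  have htt2 : |(t' : ℝ) - t| ≤ R := by
    rw [abs_le]; constructor <;> linarith
  have hup' : (q0 : ℝ) ^ 2 ≤ (R : ℝ) ^ (N + 3) := by exact_mod_cast hup
  have ha0 : (0 : ℝ) < a t := by exact_mod_cast hF.1
  have ha0' : (0 : ℝ) < a t' := by exact_mod_cast hF'.1
  have hpow1 : (1 : ℤ) ≤ 2 ^ k t := one_le_pow₀ (by norm_num)
  have haR : (R : ℝ) ^ N ≤ R * a t := by
    have : (R : ℤ) ^ N ≤ R * a t := by
      exact le_trans (le_mul_of_one_le_left (pow_pos hRz N).le hpow1) h1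
    exact_mod_cast this
  have haR' : (R : ℝ) ^ N ≤ R * a t' := by
    have : (R : ℤ) ^ N ≤ R * a t' := by
      exact le_trans (le_mul_of_one_le_left (pow_pos hRz N).le hpow1) h1'
    exact_mod_cast this
  -- q0^2 ≤ R^4 a
  have hqa : (q0 : ℝ) ^ 2 ≤ (R : ℝ) ^ 4 * a t := by
    calc (q0 : ℝ) ^ 2 ≤ (R : ℝ) ^ 3 * (R : ℝ) ^ N := by rw [← pow_add, add_comm]; exact hup'
      _ ≤ (R : ℝ) ^ 3 * (R * a t) := mul_le_mul_of_nonneg_left haR (by positivity)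
      _ = _ := by ring
  have hqa' : (q0 : ℝ) ^ 2 ≤ (R : ℝ) ^ 4 * a t' := by
    calc (q0 : ℝ) ^ 2 ≤ (R : ℝ) ^ 3 * (R : ℝ) ^ N := by rw [← pow_add, add_comm]; exact hup'
      _ ≤ (R : ℝ) ^ 3 * (R * a t') := mul_le_mul_of_nonneg_left haR' (by positivity)
      _ = _ := by ring
  -- ε'/(2a) ≤ 1/(2 J² q0²)
  have hea : ε' / (2 * a t) ≤ 1 / (2 * (J ^ 2 * q0 ^ 2)) := by
    rw [div_le_div_iff₀ (by positivity) (by positivity)]
    have k1 : ε' * J ^ 2 * (q0 : ℝ) ^ 2 ≤ ε' * J ^ 2 * ((R : ℝ) ^ 4 * a t) :=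
      mul_le_mul_of_nonneg_left hqa (by positivity)
    have k2 : ε' * (R : ℝ) ^ 4 * J ^ 2 * a t ≤ 1 * a t :=
      mul_le_mul_of_nonneg_right hε' ha0.le
    linarith
  have hea' : ε' / (2 * a t') ≤ 1 / (2 * (J ^ 2 * q0 ^ 2)) := by
    rw [div_le_div_iff₀ (by positivity) (by positivity)]
    have k1 : ε' * J ^ 2 * (q0 : ℝ) ^ 2 ≤ ε' * J ^ 2 * ((R : ℝ) ^ 4 * a t') :=
      mul_le_mul_of_nonneg_left hqa' (by positivity)
    have k2 : ε' * (R : ℝ) ^ 4 * J ^ 2 * a t' ≤ 1 * a t' :=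
      mul_le_mul_of_nonneg_right hε' ha0'.le
    linarith
  have c1 : |P / Q - -(b t : ℝ) / (2 * a t)| < 1 / (2 * (J ^ 2 * q0 ^ 2)) := by
    have e1 : P / Q - -(b t : ℝ) / (2 * a t) = (2 * a t * (P / Q) + b t) / (2 * a t) := by
      field_simp; ring
    rw [e1, abs_div, abs_of_pos (by positivity : (0 : ℝ) < 2 * a t)]
    refine lt_of_lt_of_le ?_ hea
    exact div_lt_div_of_pos_right h4 (by positivity)
  have c2 : |P' / Q' - -(b t' : ℝ) / (2 * a t')| < 1 / (2 * (J ^ 2 * q0 ^ 2)) := by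
    have e1 : P' / Q' - -(b t' : ℝ) / (2 * a t') = (2 * a t' * (P' / Q') + b t') / (2 * a t') := by
      field_simp; ring
    rw [e1, abs_div, abs_of_pos (by positivity : (0 : ℝ) < 2 * a t')]
    refine lt_of_lt_of_le ?_ hea'
    exact div_lt_div_of_pos_right h4' (by positivity)
  have hQQ : (8 * R * q0) * (8 * R * q0) ≤ Q * Q' :=
    mul_le_mul hQlo hQlo' (by positivity) hQ0.le
  have hQQ2 : Q * Q' ≤ (J * q0) * (J * q0) :=
    mul_le_mul hQhi hQhi' hQ0'.le (by positivity)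
  have d1 : |P / Q - P' / Q'| ≤ 1 / (64 * q0 ^ 2) := by
    rw [hdiff, abs_div, abs_of_pos (mul_pos hQ0 hQ0'), div_le_div_iff₀ (mul_pos hQ0 hQ0')
      (by positivity)]
    have k1 : |(t' : ℝ) - t| * (64 * (q0 : ℝ) ^ 2) ≤ R * (64 * (q0 : ℝ) ^ 2) :=
      mul_le_mul_of_nonneg_right htt2 (by positivity)
    have k2 : R * (64 * (q0 : ℝ) ^ 2) ≤ R * (R * (64 * (q0 : ℝ) ^ 2)) :=
      mul_le_mul_of_nonneg_left (le_mul_of_one_le_left (by positivity) hRr.le) hRr0.le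
    linarith
  have d2 : 1 / (J ^ 2 * q0 ^ 2) ≤ |P / Q - P' / Q'| := by
    rw [hdiff, abs_div, abs_of_pos (mul_pos hQ0 hQ0'), div_le_div_iff₀ (by positivity)
      (mul_pos hQ0 hQ0')]
    have k1 : 1 * (J ^ 2 * (q0 : ℝ) ^ 2) ≤ |(t' : ℝ) - t| * (J ^ 2 * (q0 : ℝ) ^ 2) :=
      mul_le_mul_of_nonneg_right htt1 (by positivity)
    linarith
  have hJ1 : 1 / (2 * (J ^ 2 * (q0 : ℝ) ^ 2)) ≤ 1 / (4 * q0 ^ 2) := by
    apply one_div_le_one_div_of_le (by positivity)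
    have h9 : (2 : ℝ) ≤ J ^ 2 := by nlinarith
    have := mul_le_mul_of_nonneg_right h9 (pow_pos hq0r 2).le
    linarith
  have g1 : a t ≤ 2 * a t' := by
    have : (R : ℤ) * a t ≤ R * (2 * a t') := by
      rw [pow_succ] at h2
      linarith
    exact le_of_mul_le_mul_left this hRz
  have g2 : a t' ≤ 2 * a t := by
    have : (R : ℤ) * a t' ≤ R * (2 * a t) := by
      rw [pow_succ] at h2'
      linarith
    exact le_of_mul_le_mul_left this hRz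
  have hK1 : (a t : ℝ) ≤ (q0 : ℝ) ^ 2 := by exact_mod_cast h3.le
  have hK2 : (a t' : ℝ) ≤ (q0 : ℝ) ^ 2 := by exact_mod_cast h3'.le
  have e64 : (1 : ℝ) / (64 * q0 ^ 2) = (1 / q0 ^ 2) / 64 := by field_simp
  have e4 : (1 : ℝ) / (4 * q0 ^ 2) = (1 / q0 ^ 2) / 4 := by field_simp
  have epos : (0 : ℝ) < 1 / q0 ^ 2 := by positivity
  rw [e64] at d1
  rw [e4] at hJ1
  obtain ⟨k1, k2⟩ := IsF.cent hF hF' g1 g2 hK1 hK2 (by
    have t1 := abs_sub_le (-(b t : ℝ) / (2 * a t)) (P / Q) (-(b t' : ℝ) / (2 * a t'))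
    have t2 := abs_sub_le (P / Q) (P' / Q') (-(b t' : ℝ) / (2 * a t'))
    have t3 := abs_sub_comm (-(b t : ℝ) / (2 * a t)) (P / Q)
    linarith)
  rw [← k1, ← k2] at c2
  have t1 := abs_sub_le (P / Q) (-(b t : ℝ) / (2 * a t)) (P' / Q')
  have t2 := abs_sub_comm (-(b t : ℝ) / (2 * a t)) (P' / Q')
  have e5 : (1 : ℝ) / (J ^ 2 * q0 ^ 2) = 1 / (2 * (J ^ 2 * q0 ^ 2)) + 1 / (2 * (J ^ 2 * q0 ^ 2)) := by
    field_simp; norm_num
  linarith

end Pool.Agent.J4H53.DI
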