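import Pool.Agent.J4H53.DI.Near

set_option autoImplicit false

/-!
# The steering step
-/

namespace Pool.Agent.J4H53.DI

open Set

/-- Rational avoidance for all levels `n` with `n' ≤ n < N`. -/
def RA (R n' N : ℕ) (I : Set ℝ) : Prop := ∀ n, n' ≤ n → n < N → RA1 R n I

/-- Points near a cusp `P / q` avoid the centres of all forms in a long range. -/
lemma near_cusp {P q p0 q0 : ℤ} (hq0 : 0 < q0) (hq : 4 * q0 ≤ q)
    (hdet : (P * q0 - p0 * q) ^ 2 = 1) {ε ε' K : ℝ} (hε0 : 0 < ε') (hε5 : ε' ≤ 1 / 5)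
    (hεε' : 2 * ε ≤ ε') (hK : 32 ≤ K) (hK' : 4 ≤ ε' * K) {x : ℝ}
    (hx : |x - P / q| ≤ 1 / (K * q ^ 2)) {a b : ℤ} (hF : IsF a b)
    (hz : a < q0 ^ 2 → ε' ≤ |2 * a * ((P : ℝ) / q) + b|) (ha : 16 * (a : ℝ) ≤ K ^ 2 * q ^ 2) :
    ε ≤ |2 * a * x + b| := by
  have hqp : 0 < q := by linarith
  have hqr : (0 : ℝ) < q := by exact_mod_cast hqp
  have ha0 : (0 : ℝ) < a := by exact_mod_cast hF.1
  have hK0 : 0 < K := by linarith
  have htri : |2 * a * ((P : ℝ) / q) + b| - 2 * a * |x - P / q| ≤ |2 * a * x + b| := by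
    have h1 : 2 * a * ((P : ℝ) / q) + b = (2 * a * x + b) - 2 * a * (x - P / q) := by ring
    have h2 := abs_sub (2 * a * x + b : ℝ) (2 * a * (x - P / q))
    rw [← h1, abs_mul, abs_of_pos (by positivity : (0 : ℝ) < 2 * a)] at h2
    linarith
  have hval : |2 * a * ((P : ℝ) / q) + b| = |2 * a * (P : ℝ) + b * q| / q := by
    rw [← abs_of_pos hqr, ← abs_div, abs_of_pos hqr]
    congr 1
    field_simp
  rcases lt_or_ge a (q ^ 2) with hlt | hge
  · -- a < q²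
    have hbase : ε' ≤ |2 * a * ((P : ℝ) / q) + b| := by
      rcases lt_or_ge a (q0 ^ 2) with h1 | h1
      · exact hz h1
      · have h2 := IsF.cusp2 (p := P) (q := q) hF hq0 hq hdet h1
        have h3 : (q : ℝ) ^ 2 ≤ (5 * (2 * a * (P : ℝ) + b * q)) ^ 2 := by
          have : (q : ℝ) ^ 2 ≤ 25 * (2 * a * (P : ℝ) + b * q) ^ 2 := by exact_mod_cast h2
          linarith
        have h4 := sq_le_sq.1 h3
        rw [abs_of_pos hqr, abs_mul, abs_of_pos (by norm_num : (0 : ℝ) < 5)] at h4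
        rw [hval]
        refine hε5.trans ?_
        rw [le_div_iff₀ hqr]
        linarith
    have h5 : 2 * a * |x - P / q| ≤ 2 / K := by
      have h6 : (a : ℝ) ≤ q ^ 2 := by exact_mod_cast hlt.le
      calc 2 * a * |x - P / q| ≤ 2 * q ^ 2 * (1 / (K * q ^ 2)) := by
            apply mul_le_mul _ hx (abs_nonneg _) (by positivity)
            linarith
        _ = 2 / K := by field_simp
    have h7 : 2 / K ≤ ε' / 2 := by
      rw [div_le_div_iff₀ hK0 (by norm_num)]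
      linarith
    linarith
  · -- a ≥ q²
    set t : ℝ := a / q ^ 2 with ht
    have hat : (a : ℝ) = t * q ^ 2 := by rw [ht]; field_simp
    have hge' : (q : ℝ) ^ 2 ≤ a := by exact_mod_cast hge
    have ht1 : 1 ≤ t := by
      rw [ht, le_div_iff₀ (by positivity)]; linarith
    have htK : 16 * t ≤ K ^ 2 := by
      have : 16 * t * q ^ 2 ≤ K ^ 2 * q ^ 2 := by
        calc 16 * t * q ^ 2 = 16 * (a : ℝ) := by rw [hat]; ring
          _ ≤ _ := ha
      exact le_of_mul_le_mul_right this (by positivity)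
    set V : ℝ := |2 * a * ((P : ℝ) / q) + b| with hV
    have hV2 : 4 * t - 3 ≤ V ^ 2 := by
      have h1 := IsF.cusp1 (p := P) (q := q) hF hqp
      have h2 : 4 * (a : ℝ) - 3 * q ^ 2 ≤ (2 * a * (P : ℝ) + b * q) ^ 2 := by exact_mod_cast h1
      rw [hval, div_pow, sq_abs, le_div_iff₀ (by positivity)]
      calc (4 * t - 3) * (q : ℝ) ^ 2 = 4 * (a : ℝ) - 3 * q ^ 2 := by rw [hat]; ring
        _ ≤ _ := h2
    set D : ℝ := 2 * a * |x - P / q| with hD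
    have hD0 : 0 ≤ D := by rw [hD]; positivity
    have hD1 : D ≤ 2 * t / K := by
      rw [hD, hat]
      calc 2 * (t * q ^ 2) * |x - P / q| ≤ 2 * (t * q ^ 2) * (1 / (K * q ^ 2)) :=
            mul_le_mul_of_nonneg_left hx (by positivity)
        _ = 2 * t / K := by field_simp
    have hD2 : D ≤ t / 2 := by
      refine hD1.trans ?_
      rw [div_le_div_iff₀ hK0 (by norm_num)]
      nlinarith
    have hD3 : D ^ 2 ≤ t / 4 := by
      have h1 : D ^ 2 ≤ (2 * t / K) ^ 2 := pow_le_pow_left₀ hD0 hD1 2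
      refine h1.trans ?_
      rw [div_pow, div_le_div_iff₀ (by positivity) (by norm_num)]
      have h2 := mul_le_mul_of_nonneg_left htK (by linarith : 0 ≤ t)
      linarith
    have h8 : (D + 1 / 2) ^ 2 ≤ V ^ 2 := by nlinarith
    have h9 : D + 1 / 2 ≤ V := abs_le_of_sq_le_sq' h8 (abs_nonneg _) |>.2
    linarith

lemma fill {m : ℕ} (hm : 4 ≤ m) {R : ℕ} (hR : R = 4 ^ m) {ε : ℝ}
    (hε : ε ≤ ((R : ℝ) ^ 2)⁻¹) (t N : ℕ) (i : ℤ) (h : Nd ε R N (Iv R N i)) :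
    ∃ i' : ℤ, Iv R (N + t) i' ⊆ Iv R N i ∧ Nd ε R (N + t) (Iv R (N + t) i') := by
  have hpos : 0 < R / 8 := by
    have h1 : 4 ^ 4 ≤ 4 ^ m := Nat.pow_le_pow_right (by norm_num) hm
    rw [hR]; omega
  induction t with
  | zero => exact ⟨i, le_rfl, h⟩
  | succ t ih =>
    obtain ⟨i', h1, h2⟩ := ih
    obtain ⟨c, hc1, hc2, -, -⟩ := step hm hR hε h2
    exact ⟨c ⟨0, hpos⟩, (hc1 _).trans h1, hc2 _⟩

theorem steer {m : ℕ} (hm : 4 ≤ m) {R : ℕ} (hR : R = 4 ^ m) {ε ε' : ℝ} (hε0 : 0 < ε')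
    (hεε' : 2 * ε ≤ ε') (hε' : ε' * (R : ℝ) ^ 4 * (8 * R + 8 * m + 1) ^ 2 ≤ 1)
    (hε2 : ε ≤ ((R : ℝ) ^ 2)⁻¹) (k : ℕ) :
    ∃ s : ℕ, ∀ (N n' : ℕ) (i : ℤ), n' < N → 2 * n' ≤ N + 1 → Nd ε R N (Iv R N i) →
      RA R n' N (Iv R N i) →
      ∃ i' : ℤ, Iv R (N + s) i' ⊆ Iv R N i ∧ Nd ε R (N + s) (Iv R (N + s) i') ∧
        ∃ p q : ℤ, 0 < q ∧ ∀ x ∈ Iv R (N + s) i', |x - p / q| ≤ 1 / ((k + 1) * q ^ 2) := by
  have hR256 : 256 ≤ R := by
    have h1 : 4 ^ 4 ≤ 4 ^ m := Nat.pow_le_pow_right (by norm_num) hm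
    rw [hR]; omega
  have hRr : (256 : ℝ) ≤ R := by exact_mod_cast hR256
  have hRr0 : (0 : ℝ) < R := by linarith
  have hR1 : (1 : ℝ) < R := by linarith
  have hRz : (0 : ℤ) < R := by omega
  have hm0 : (0 : ℝ) ≤ m := Nat.cast_nonneg m
  set J : ℝ := 8 * R + 8 * m + 1 with hJ
  have hJ1 : 1 ≤ J := by rw [hJ]; linarith
  have hε5 : ε' ≤ 1 / 5 := by
    have h1 : (5 : ℝ) ≤ R ^ 4 * J ^ 2 := by
      have h2 : (1 : ℝ) ≤ J ^ 2 := one_le_pow₀ hJ1
      have h3 : (R : ℝ) ≤ R ^ 4 := le_self_pow₀ hR1.le (by norm_num)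
      nlinarith [mul_le_mul h3 h2 (by norm_num) (by positivity)]
    nlinarith
  set K : ℝ := k + 32 + 4 / ε' with hK
  have hK32 : 32 ≤ K := by rw [hK]; have : (0 : ℝ) ≤ k := Nat.cast_nonneg k; have := div_pos (by norm_num : (0:ℝ) < 4) hε0; linarith
  have hKk : (k : ℝ) + 1 ≤ K := by rw [hK]; have := div_pos (by norm_num : (0:ℝ) < 4) hε0; linarith
  have hK4 : 4 ≤ ε' * K := by
    rw [hK]
    have h1 : ε' * (4 / ε') = 4 := by field_simp
    have h2 : 0 ≤ ε' * ((k : ℝ) + 32) := by positivity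
    linarith
  have hK0 : 0 < K := by linarith
  obtain ⟨s, hs⟩ := pow_unbounded_of_one_lt (2 * K * J ^ 2 * R ^ 3) hR1
  refine ⟨s, fun N n' i hn hn2 hNd hRA => ?_⟩
  set ℓ : ℝ := ((R : ℝ) ^ N)⁻¹ with hℓ
  have hℓ0 : 0 < ℓ := by rw [hℓ]; positivity
  set x0 : ℝ := (i + 1 / 2) * ℓ with hx0
  have hx0I : x0 ∈ Iv R N i := by
    constructor
    · rw [hx0, ← hℓ]; nlinarith
    · rw [hx0, ← hℓ]; nlinarith
  obtain ⟨p0, q0, hcop, hq0, hlow, hup, hx0q⟩ := approx (m := m) (R := R) (N := N) (n' := n')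
    (x0 := x0) hR (by omega) hn hn2 (fun n h1 h2 p q h3 h4 => hRA n h1 h2 p q h3 h4 x0 hx0I)
  obtain ⟨p1, q1, hdet, hq1, hq1'⟩ := exists_nb hcop hq0
  obtain ⟨j, hj1, hj2, hzone⟩ := exists_good (N := N) hm hR hε0 hε' hq0 hdet hq1 hq1' hup
  set q : ℤ := j * q0 + q1 with hq
  set P : ℤ := j * p0 + p1 with hP
  have hjz1 : (8 * R : ℤ) ≤ j := by exact_mod_cast hj1
  have hjz2 : (j : ℤ) ≤ 8 * R + 8 * m := by exact_mod_cast hj2
  have hq0r : (0 : ℝ) < q0 := by exact_mod_cast hq0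
  have hqlo : 8 * (R : ℤ) * q0 ≤ q := by
    rw [hq]
    have := mul_le_mul_of_nonneg_right hjz1 hq0.le
    linarith
  have hq4 : 4 * q0 ≤ q := by
    refine le_trans ?_ hqlo
    have : (1 : ℤ) ≤ R := by omega
    nlinarith
  have hqp : 0 < q := by linarith
  have hqr : (0 : ℝ) < q := by exact_mod_cast hqp
  have hqlor : 8 * (R : ℝ) * q0 ≤ q := by exact_mod_cast hqlo
  have hqhi : (q : ℝ) ≤ J * q0 := by
    have h1 : q ≤ (8 * R + 8 * m + 1) * q0 := by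
      rw [hq]
      have := mul_le_mul_of_nonneg_right hjz2 hq0.le
      linarith
    rw [hJ]; exact_mod_cast h1
  have hPq : P * q0 - p0 * q = 1 := by rw [hP, hq]; linear_combination hdet
  have hPqr : (P : ℝ) * q0 - p0 * q = 1 := by exact_mod_cast hPq
  have hlowr : (R : ℝ) ^ N ≤ R * q0 ^ 2 := by exact_mod_cast hlow
  have hupr : (q0 : ℝ) ^ 2 ≤ (R : ℝ) ^ (N + 3) := by exact_mod_cast hup
  -- 1/q0^2 ≤ R ℓ
  have hq0ℓ : 1 ≤ R * ℓ * q0 ^ 2 := by
    have h1 : ℓ * (R : ℝ) ^ N = 1 := by rw [hℓ]; field_simp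
    have h2 := mul_le_mul_of_nonneg_left hlowr hℓ0.le
    linarith
  -- distance of the neighbour
  have hd1 : |(P : ℝ) / q - p0 / q0| ≤ ℓ / 8 := by
    have e1 : (P : ℝ) / q - p0 / q0 = 1 / (q * q0) := by
      rw [div_sub_div _ _ hqr.ne' hq0r.ne']
      congr 1
      linarith
    rw [e1, abs_of_pos (by positivity), div_le_div_iff₀ (by positivity) (by norm_num)]
    have h1 : 8 * (R : ℝ) * q0 * q0 ≤ q * q0 := mul_le_mul_of_nonneg_right hqlor hq0r.le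
    have h2 := mul_le_mul_of_nonneg_left h1 hℓ0.le
    nlinarith
  have hd2 : |x0 - p0 / q0| ≤ ℓ / 256 := by
    refine hx0q.trans ?_
    rw [pow_succ, mul_inv, ← hℓ, div_eq_mul_inv]
    apply mul_le_mul_of_nonneg_left _ hℓ0.le
    exact inv_anti₀ (by norm_num) hRr
  have hd3 : |x0 - P / q| ≤ ℓ / 4 := by
    have h1 := abs_sub_le x0 ((p0 : ℝ) / q0) (P / q)
    have h2 := abs_sub_comm ((p0 : ℝ) / q0) (P / q)
    linarith
  -- size of the cusp neighbourhood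
  have hqℓ : 1 / (q : ℝ) ^ 2 ≤ ℓ / 64 := by
    rw [div_le_div_iff₀ (by positivity) (by norm_num)]
    have h1 : (8 * (R : ℝ) * q0) ^ 2 ≤ (q : ℝ) ^ 2 := pow_le_pow_left₀ (by positivity) hqlor 2
    have h2 := mul_le_mul_of_nonneg_left h1 hℓ0.le
    have h3 : 1 ≤ (R : ℝ) * (R * ℓ * q0 ^ 2) := by nlinarith
    nlinarith
  -- the new level
  have hlev : 2 * K * (q : ℝ) ^ 2 ≤ (R : ℝ) ^ (N + s) := by
    have h1 : (q : ℝ) ^ 2 ≤ (J * q0) ^ 2 := pow_le_pow_left₀ hqr.le hqhi 2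
    calc 2 * K * (q : ℝ) ^ 2 ≤ 2 * K * (J * q0) ^ 2 := mul_le_mul_of_nonneg_left h1 (by positivity)
      _ = 2 * K * J ^ 2 * q0 ^ 2 := by ring
      _ ≤ 2 * K * J ^ 2 * (R : ℝ) ^ (N + 3) := mul_le_mul_of_nonneg_left hupr (by positivity)
      _ = (R : ℝ) ^ N * (2 * K * J ^ 2 * R ^ 3) := by ring
      _ ≤ (R : ℝ) ^ N * (R : ℝ) ^ s := mul_le_mul_of_nonneg_left hs.le (by positivity)
      _ = _ := by rw [pow_add]
  have hex : ∃ n, 2 * K * (q : ℝ) ^ 2 ≤ (R : ℝ) ^ n := ⟨N + s, hlev⟩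
  classical
  set N' := Nat.find hex with hN'
  have hN'1 : 2 * K * (q : ℝ) ^ 2 ≤ (R : ℝ) ^ N' := Nat.find_spec hex
  have hN's : N' ≤ N + s := Nat.find_min' hex hlev
  set i' : ℤ := ⌊(P : ℝ) / q * (R : ℝ) ^ N'⌋ with hi'
  have hRN' : (0 : ℝ) < (R : ℝ) ^ N' := by positivity
  -- points of the new node are near the cusp
  have hnear : ∀ x ∈ Iv R N' i', |x - P / q| ≤ 1 / (K * q ^ 2) := by
    intro x hx
    obtain ⟨hx1, hx2⟩ := hx
    have f1 := Int.floor_le ((P : ℝ) / q * (R : ℝ) ^ N')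
    have f2 := Int.lt_floor_add_one ((P : ℝ) / q * (R : ℝ) ^ N')
    rw [← hi'] at f1 f2
    have g1 : (i' : ℝ) * ((R : ℝ) ^ N')⁻¹ ≤ P / q := by
      rw [← div_eq_mul_inv, div_le_iff₀ hRN']; exact f1
    have g2 : (P : ℝ) / q ≤ ((i' : ℝ) + 1) * ((R : ℝ) ^ N')⁻¹ := by
      rw [← div_eq_mul_inv, le_div_iff₀ hRN']; exact f2.le
    have g3 : |x - P / q| ≤ ((R : ℝ) ^ N')⁻¹ := by
      rw [abs_le]; constructor <;> linarith
    refine g3.trans ?_
    rw [one_div]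
    apply inv_anti₀ (by positivity)
    refine le_trans ?_ hN'1
    have : 0 ≤ K * (q : ℝ) ^ 2 := by positivity
    linarith
  have hsubN : Iv R N' i' ⊆ Iv R N i := by
    intro x hx
    have h1 := hnear x hx
    have h2 : 1 / (K * (q : ℝ) ^ 2) ≤ 1 / (q : ℝ) ^ 2 := by
      apply one_div_le_one_div_of_le (by positivity)
      exact le_mul_of_one_le_left (by positivity) (by linarith)
    have h3 := abs_sub_le x (P / q) x0
    have h4 := abs_sub_comm x0 ((P : ℝ) / q)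
    have h5 : |x - x0| ≤ ℓ / 2 := by linarith
    rw [abs_le] at h5
    constructor
    · rw [← hℓ]; rw [hx0] at h5; linarith
    · rw [← hℓ]; rw [hx0] at h5; linarith
  have hNd' : Nd ε R N' (Iv R N' i') := by
    intro x hx a b hF hlt
    by_cases hlo : (R : ℤ) * a < (R : ℤ) ^ N
    · exact hNd x (hsubN hx) a b hF hlo
    · push Not at hlo
      refine near_cusp (P := P) (q := q) (p0 := p0) (q0 := q0) hq0 hq4 (by rw [hPq]; norm_num)
        hε0 hε5 hεε' hK32 hK4 (hnear x hx) hF (fun h => hzone a b hF hlo h) ?_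
      have ha1 : (1 : ℤ) ≤ a := hF.1
      have hltr : (R : ℝ) * a < (R : ℝ) ^ N' := by exact_mod_cast hlt
      have ha1r : (1 : ℝ) ≤ a := by exact_mod_cast ha1
      have hN0 : N' ≠ 0 := by
        intro h0
        rw [h0, pow_zero] at hltr
        nlinarith
      have hmin : ¬ (2 * K * (q : ℝ) ^ 2 ≤ (R : ℝ) ^ (N' - 1)) :=
        Nat.find_min hex (by omega)
      push Not at hmin
      have hp : (R : ℝ) ^ N' = R * (R : ℝ) ^ (N' - 1) := by
        rw [← pow_succ']; congr 1; omega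
      rw [hp] at hltr
      have h1 : (a : ℝ) < (R : ℝ) ^ (N' - 1) := lt_of_mul_lt_mul_left hltr hRr0.le
      have h2 : (a : ℝ) < 2 * K * (q : ℝ) ^ 2 := h1.trans hmin
      have h3 : 32 * (K * (q : ℝ) ^ 2) ≤ K * (K * (q : ℝ) ^ 2) :=
        mul_le_mul_of_nonneg_right hK32 (by positivity)
      nlinarith
  obtain ⟨t, ht⟩ : ∃ t, N + s = N' + t := ⟨N + s - N', by omega⟩
  obtain ⟨i2, hi2, hNd2⟩ := fill hm hR hε2 t N' i' hNd'
  rw [← ht] at hi2 hNd2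
  refine ⟨i2, hi2.trans hsubN, hNd2, P, q, hqp, fun x hx => ?_⟩
  refine (hnear x (hi2 hx)).trans ?_
  apply one_div_le_one_div_of_le (by positivity)
  exact mul_le_mul_of_nonneg_right hKk (by positivity)

end Pool.Agent.J4H53.DI
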