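import Pool.Agent.J4H53.DI.Forms

set_option autoImplicit false

/-!
# The normal step of the construction
-/

namespace Pool.Agent.J4H53.DI

open Set

/-- The closed `R`-adic interval of level `N` with index `i`. -/
def Iv (R : ℕ) (N : ℕ) (i : ℤ) : Set ℝ :=
  Set.Icc ((i : ℝ) * ((R : ℝ) ^ N)⁻¹) (((i : ℝ) + 1) * ((R : ℝ) ^ N)⁻¹)

/-- All points of `I` avoid the centres of the forms with `R a < R ^ N`. -/
def Nd (ε : ℝ) (R N : ℕ) (I : Set ℝ) : Prop :=
  ∀ x ∈ I, ∀ a b : ℤ, IsF a b → (R : ℤ) * a < (R : ℤ) ^ N → ε ≤ |2 * a * x + b|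

/-- All points of `I` avoid the rationals with `q ^ 2 < R ^ n`, at scale `R ^ (-n-1)`. -/
def RA1 (R n : ℕ) (I : Set ℝ) : Prop :=
  ∀ p q : ℤ, 0 < q → q ^ 2 < (R : ℤ) ^ n → ∀ x ∈ I, ((R : ℝ) ^ (n + 1))⁻¹ ≤ |x - p / q|

lemma IsF.cent {a b a' b' : ℤ} (h : IsF a b) (h' : IsF a' b') (h1 : a ≤ 2 * a') (h2 : a' ≤ 2 * a)
    {K : ℝ} (hK : (a : ℝ) ≤ K) (hK' : (a' : ℝ) ≤ K)
    (hlt : |(-b / (2 * a) : ℝ) - (-b' / (2 * a'))| < 1 / K) : a = a' ∧ b = b' := by
  wlog hle : a ≤ a' generalizing a b a' b'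
  · have := this h' h h2 h1 hK' hK (by rw [abs_sub_comm]; exact hlt) (by omega)
    exact ⟨this.1.symm, this.2.symm⟩
  by_contra hne
  have hs := IsF.sep h h' hne hle h2
  have ha := h.1
  have ha' := h'.1
  have har : (0 : ℝ) < a := by exact_mod_cast ha
  have har' : (0 : ℝ) < a' := by exact_mod_cast ha'
  have hs' : (2 * (a : ℝ)) ^ 2 ≤ ((a' : ℝ) * b - a * b') ^ 2 := by
    have : (4 * (a : ℝ) ^ 2) ≤ ((a' : ℝ) * b - a * b') ^ 2 := by exact_mod_cast hs
    linarith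
  have hs2 := sq_le_sq.1 hs'
  rw [abs_of_pos (by positivity)] at hs2
  have e1 : (-b / (2 * a) : ℝ) - (-b' / (2 * a')) = -((a' : ℝ) * b - a * b') / (2 * a * a') := by
    field_simp
    ring
  rw [e1, abs_div, abs_neg, abs_of_pos (by positivity : (0 : ℝ) < 2 * a * a')] at hlt
  have e2 : (1 : ℝ) / a' ≤ |(a' : ℝ) * b - a * b'| / (2 * a * a') := by
    rw [div_le_div_iff₀ har' (by positivity)]
    nlinarith
  have e3 : 1 / K ≤ 1 / (a' : ℝ) := one_div_le_one_div_of_le har' hK'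
  linarith

lemma kill {R N : ℕ} {i : ℤ} (hR : 0 < R) {X : Finset ℕ} (hX : ∀ v ∈ X, 4 * v + 1 ≤ R)
    (c : ℕ → ℝ)
    (h1 : ∀ v ∈ X, ∃ x ∈ Iv R (N + 1) (R * i + 4 * v), |x - c v| < ((R : ℝ) ^ (N + 1))⁻¹)
    (h2 : ∀ v ∈ X, ∀ v' ∈ X, |c v - c v'| < ((R : ℝ) ^ N)⁻¹ → c v = c v') : X.card ≤ 3 := by
  have hRr : (0 : ℝ) < R := by exact_mod_cast hR
  have hR1 : (1 : ℝ) ≤ R := by exact_mod_cast hR
  set u : ℝ := ((R : ℝ) ^ (N + 1))⁻¹ with hu
  have hu0 : 0 < u := by rw [hu]; positivity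
  have hℓ : ((R : ℝ) ^ N)⁻¹ = R * u := by rw [hu, pow_succ]; field_simp
  rw [hℓ] at h2
  have hmaps : ∀ v ∈ X, ⌊(c v - R * i * u) / (R * u)⌋ ∈ Finset.Icc (-1 : ℤ) 1 := by
    intro v hv
    obtain ⟨x, ⟨hx1, hx2⟩, hx3⟩ := h1 v hv
    rw [← hu] at hx1 hx2
    push_cast at hx1 hx2
    rw [abs_lt] at hx3
    have hvR : 4 * (v : ℝ) + 1 ≤ R := by exact_mod_cast hX v hv
    have hv0 : (0 : ℝ) ≤ v := Nat.cast_nonneg v
    have k1 := mul_le_mul_of_nonneg_right hvR hu0.le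
    have k2 := mul_nonneg hv0 hu0.le
    have k3 := mul_le_mul_of_nonneg_right hR1 hu0.le
    rw [Finset.mem_Icc]
    constructor
    · rw [Int.le_floor, le_div_iff₀ (by positivity)]
      push_cast
      nlinarith
    · have : ⌊(c v - R * i * u) / (R * u)⌋ < 2 := by
        rw [Int.floor_lt, div_lt_iff₀ (by positivity)]
        push_cast
        nlinarith
      omega
  have hinj : Set.InjOn (fun v => ⌊(c v - R * i * u) / (R * u)⌋) (X : Set ℕ) := by
    intro v hv v' hv' hvv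
    have hv := Finset.mem_coe.1 hv
    have hv' := Finset.mem_coe.1 hv'
    have h3 := Int.abs_sub_lt_one_of_floor_eq_floor hvv
    have h4 : c v = c v' := by
      apply h2 v hv v' hv'
      have e1 : (c v - R * i * u) / (R * u) - (c v' - R * i * u) / (R * u) =
          (c v - c v') / (R * u) := by ring
      rw [e1, abs_div, abs_of_pos (by positivity : 0 < (R : ℝ) * u),
        div_lt_one (by positivity)] at h3
      exact h3
    obtain ⟨x, ⟨hx1, hx2⟩, hx3⟩ := h1 v hv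
    obtain ⟨x', ⟨hx1', hx2'⟩, hx3'⟩ := h1 v' hv'
    rw [← hu] at hx1 hx2 hx1' hx2'
    push_cast at hx1 hx2 hx1' hx2'
    rw [h4] at hx3
    rw [abs_lt] at hx3 hx3'
    by_contra hne
    rcases lt_or_gt_of_ne hne with hlt | hlt
    · have : (v : ℝ) + 1 ≤ v' := by exact_mod_cast hlt
      have k1 := mul_le_mul_of_nonneg_right this hu0.le
      nlinarith
    · have : (v' : ℝ) + 1 ≤ v := by exact_mod_cast hlt
      have k1 := mul_le_mul_of_nonneg_right this hu0.le
      nlinarith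
  have := Finset.card_le_card_of_injOn _ hmaps hinj
  simpa using this

/-- dyadic block of a number -/
lemma exists_block {P t : ℤ} {L : ℕ} (h1 : P ≤ t) (h2 : t < 2 ^ L * P) :
    ∃ k < L, 2 ^ k * P ≤ t ∧ t < 2 ^ (k + 1) * P := by
  induction L with
  | zero => exfalso; simp at h2; omega
  | succ L ih =>
    by_cases h : t < 2 ^ L * P
    · obtain ⟨k, hk, h3⟩ := ih h
      exact ⟨k, by omega, h3⟩
    · push Not at h
      exact ⟨L, by omega, h, h2⟩

lemma card_aux {m : ℕ} (hm : 4 ≤ m) : 4 ^ m / 8 + (6 * m + 3) ≤ 4 ^ m / 4 := by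
  obtain ⟨k, rfl⟩ : ∃ k, m = k + 2 := ⟨m - 2, by omega⟩
  have h2 : 4 ^ (k + 2) = 16 * 4 ^ k := by rw [pow_add]; ring
  have h3 : 6 * (k + 2) + 3 ≤ 2 * 4 ^ k := by
    have hk : 2 ≤ k := by omega
    clear h2 hm
    induction k, hk using Nat.le_induction with
    | base => norm_num
    | succ k hk ih => rw [pow_succ]; omega
  omega

theorem step {m : ℕ} (hm : 4 ≤ m) {R : ℕ} (hR : R = 4 ^ m) {ε : ℝ}
    (hε : ε ≤ ((R : ℝ) ^ 2)⁻¹) {N : ℕ} {i : ℤ} (h : Nd ε R N (Iv R N i)) :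
    ∃ c : Fin (R / 8) → ℤ, (∀ d, Iv R (N + 1) (c d) ⊆ Iv R N i) ∧
      (∀ d, Nd ε R (N + 1) (Iv R (N + 1) (c d))) ∧
      (∀ d, RA1 R N (Iv R (N + 1) (c d))) ∧
      (∀ d d', d ≠ d' → ∀ z ∈ Iv R (N + 1) (c d), ∀ w ∈ Iv R (N + 1) (c d'),
        ((R : ℝ) ^ (N + 1))⁻¹ ≤ dist z w) := by
  classical
  have hR0 : 0 < R := by rw [hR]; positivity
  have hRr : (0 : ℝ) < R := by exact_mod_cast hR0
  have hRz : (0 : ℤ) < R := by exact_mod_cast hR0
  have hR1 : (1 : ℝ) ≤ R := by exact_mod_cast hR0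
  set u : ℝ := ((R : ℝ) ^ (N + 1))⁻¹ with hu
  have hu0 : 0 < u := by rw [hu]; positivity
  have hℓ : ((R : ℝ) ^ N)⁻¹ = R * u := by rw [hu, pow_succ]; field_simp
  set U : Finset ℕ := Finset.range (R / 4) with hU
  have hUR : ∀ v ∈ U, 4 * v + 1 ≤ R := by
    intro v hv
    rw [hU, Finset.mem_range] at hv
    omega
  have hsub : ∀ v ∈ U, Iv R (N + 1) (R * i + 4 * v) ⊆ Iv R N i := by
    intro v hv x hx
    obtain ⟨hx1, hx2⟩ := hx
    rw [← hu] at hx1 hx2
    push_cast at hx1 hx2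
    have hvR : 4 * (v : ℝ) + 1 ≤ R := by exact_mod_cast hUR v hv
    have hv0 : (0 : ℝ) ≤ v := Nat.cast_nonneg v
    have k1 := mul_le_mul_of_nonneg_right hvR hu0.le
    have k2 := mul_nonneg hv0 hu0.le
    constructor
    · rw [hℓ]; nlinarith
    · rw [hℓ]; nlinarith
  set Bf : ℕ → Finset ℕ := fun k => U.filter (fun v => ∃ a b : ℤ, IsF a b ∧
    2 ^ k * (R : ℤ) ^ N ≤ R * a ∧ R * a < 2 ^ (k + 1) * (R : ℤ) ^ N ∧
    ∃ x ∈ Iv R (N + 1) (R * i + 4 * v), |2 * a * x + b| < ε) with hBf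
  set Br : Finset ℕ := U.filter (fun v => ∃ p q : ℤ, 0 < q ∧ q ^ 2 < (R : ℤ) ^ N ∧
    ∃ x ∈ Iv R (N + 1) (R * i + 4 * v), |x - p / q| < u) with hBr
  have hBrc : Br.card ≤ 3 := by
    have hch : ∀ v : ℕ, ∃ c : ℝ, v ∈ Br → ∃ p q : ℤ, 0 < q ∧ q ^ 2 < (R : ℤ) ^ N ∧
        c = p / q ∧ ∃ x ∈ Iv R (N + 1) (R * i + 4 * v), |x - c| < u := by
      intro v
      by_cases hv : v ∈ Br
      · obtain ⟨-, p, q, h1, h2, h3⟩ := Finset.mem_filter.1 hv
        exact ⟨p / q, fun _ => ⟨p, q, h1, h2, rfl, h3⟩⟩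
      · exact ⟨0, fun h => absurd h hv⟩
    choose c hc using hch
    apply kill (N := N) (i := i) hR0 (fun v hv => hUR v (Finset.filter_subset _ _ hv)) c
    · intro v hv
      obtain ⟨p, q, -, -, -, h3⟩ := hc v hv
      exact h3
    · intro v hv v' hv' hlt
      obtain ⟨p, q, hq, hq2, hcv, -⟩ := hc v hv
      obtain ⟨p', q', hq', hq2', hcv', -⟩ := hc v' hv'
      have hqr : (0 : ℝ) < q := by exact_mod_cast hq
      have hqr' : (0 : ℝ) < q' := by exact_mod_cast hq'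
      by_contra hne
      rw [hcv, hcv'] at hne hlt
      have hne' : p * q' - p' * q ≠ 0 := by
        intro h0
        apply hne
        rw [div_eq_div_iff hqr.ne' hqr'.ne']
        have : (p : ℝ) * q' - p' * q = 0 := by exact_mod_cast h0
        linarith
      have h1 : (1 : ℝ) ≤ |(p : ℝ) * q' - p' * q| := by
        have : (1 : ℤ) ≤ |p * q' - p' * q| := Int.one_le_abs hne'
        exact_mod_cast this
      have e1 : (p / q - p' / q' : ℝ) = (p * q' - p' * q) / (q * q') := by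
        field_simp
      rw [e1, abs_div, abs_of_pos (by positivity : (0 : ℝ) < q * q'), div_lt_iff₀ (by positivity)]
        at hlt
      have h2 : (q : ℝ) * q' < (R : ℝ) ^ N := by
        have h3 : (q : ℝ) ^ 2 < (R : ℝ) ^ N := by exact_mod_cast hq2
        have h4 : (q' : ℝ) ^ 2 < (R : ℝ) ^ N := by exact_mod_cast hq2'
        nlinarith [sq_nonneg ((q : ℝ) - q')]
      have h3 : ((R : ℝ) ^ N)⁻¹ * (q * q') < 1 := by
        rw [inv_mul_lt_iff₀ (by positivity)]; linarith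
      linarith
  have hBfc : ∀ k < 2 * m, (Bf k).card ≤ 3 := by
    intro k hk
    have hch : ∀ v : ℕ, ∃ a b : ℤ, v ∈ Bf k → IsF a b ∧
        2 ^ k * (R : ℤ) ^ N ≤ R * a ∧ R * a < 2 ^ (k + 1) * (R : ℤ) ^ N ∧
        ∃ x ∈ Iv R (N + 1) (R * i + 4 * v), |2 * a * x + b| < ε := by
      intro v
      by_cases hv : v ∈ Bf k
      · obtain ⟨-, a, b, h1⟩ := Finset.mem_filter.1 hv
        exact ⟨a, b, fun _ => h1⟩
      · exact ⟨0, 0, fun h => absurd h hv⟩
    choose a b hab using hch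
    have hbd : ∀ v ∈ Bf k, (a v : ℝ) ≤ (R : ℝ) ^ N := by
      intro v hv
      obtain ⟨-, -, h2, -⟩ := hab v hv
      have h3 : (2 : ℤ) ^ (k + 1) ≤ R := by
        rw [hR]; push_cast
        rw [show (4 : ℤ) = 2 ^ 2 by norm_num, ← pow_mul]
        exact pow_le_pow_right₀ (by norm_num) (by omega)
      have h4 : (R : ℤ) * a v < R * (R : ℤ) ^ N :=
        lt_of_lt_of_le h2 (mul_le_mul_of_nonneg_right h3 (by positivity))
      have h5 : a v < (R : ℤ) ^ N := lt_of_mul_lt_mul_left h4 hRz.le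
      exact_mod_cast h5.le
    apply kill (N := N) (i := i) hR0 (fun v hv => hUR v (Finset.filter_subset _ _ hv))
      (fun v => -(b v : ℝ) / (2 * a v))
    · intro v hv
      obtain ⟨hF, h1, h2, x, hx, hlt⟩ := hab v hv
      refine ⟨x, hx, ?_⟩
      have ha0 : (0 : ℝ) < a v := by exact_mod_cast hF.1
      have e1 : x - -(b v : ℝ) / (2 * a v) = (2 * a v * x + b v) / (2 * a v) := by
        field_simp; ring
      rw [e1, abs_div, abs_of_pos (by positivity : (0 : ℝ) < 2 * a v), div_lt_iff₀ (by positivity)]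
      have h3 : (R : ℝ) ^ N ≤ R * a v := by
        have h4 : (R : ℤ) ^ N ≤ R * a v := by
          refine le_trans ?_ h1
          have : (1 : ℤ) ≤ 2 ^ k := one_le_pow₀ (by norm_num)
          nlinarith [pow_pos hRz N]
        exact_mod_cast h4
      refine lt_of_lt_of_le (hlt.trans_le hε) ?_
      rw [← hu]
      have h5 : (1 : ℝ) = u * (R ^ (N + 1)) := by rw [hu]; field_simp
      rw [inv_le_iff_one_le_mul₀ (by positivity)]
      have h6 : u * (R : ℝ) ^ (N + 1) ≤ u * (2 * a v) * R ^ 2 := by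
        have : (R : ℝ) ^ (N + 1) ≤ 2 * a v * R ^ 2 := by
          rw [pow_succ]
          nlinarith [mul_pos hRr ha0, mul_pos (mul_pos hRr ha0) hRr]
        calc u * (R : ℝ) ^ (N + 1) ≤ u * (2 * a v * R ^ 2) :=
              mul_le_mul_of_nonneg_left this hu0.le
          _ = _ := by ring
      linarith
    · intro v hv v' hv' hlt
      obtain ⟨hF, h1, h2, -⟩ := hab v hv
      obtain ⟨hF', h1', h2', -⟩ := hab v' hv'
      have g1 : a v ≤ 2 * a v' := by
        have : (R : ℤ) * a v ≤ R * (2 * a v') := by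
          rw [pow_succ] at h2
          linarith
        exact le_of_mul_le_mul_left this hRz
      have g2 : a v' ≤ 2 * a v := by
        have : (R : ℤ) * a v' ≤ R * (2 * a v) := by
          rw [pow_succ] at h2'
          linarith
        exact le_of_mul_le_mul_left this hRz
      have := IsF.cent hF hF' g1 g2 (hbd v hv) (hbd v' hv') (by
        rw [one_div]; exact hlt)
      rw [this.1, this.2]
  set Kd : Finset ℕ := (Finset.range (2 * m)).biUnion Bf ∪ Br with hKd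
  have hKdc : Kd.card ≤ 6 * m + 3 := by
    have h1 : ((Finset.range (2 * m)).biUnion Bf).card ≤ (Finset.range (2 * m)).card * 3 :=
      Finset.card_biUnion_le_card_mul _ _ _ (fun k hk => hBfc k (Finset.mem_range.1 hk))
    rw [Finset.card_range] at h1
    have h2 := Finset.card_union_le ((Finset.range (2 * m)).biUnion Bf) Br
    rw [← hKd] at h2
    omega
  have hgood : R / 8 ≤ (U \ Kd).card := by
    have h1 := Finset.le_card_sdiff Kd U
    have h2 : U.card = R / 4 := by rw [hU, Finset.card_range]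
    have h3 := card_aux hm
    rw [← hR] at h3
    omega
  set f := Finset.orderEmbOfCardLe (U \ Kd) hgood with hf
  have hfm : ∀ d, f d ∈ U \ Kd := fun d => Finset.orderEmbOfCardLe_mem _ hgood d
  refine ⟨fun d => R * i + 4 * (f d : ℤ), fun d => ?_, fun d => ?_, fun d => ?_, ?_⟩
  · exact hsub _ (Finset.mem_sdiff.1 (hfm d)).1
  · obtain ⟨hdU, hdK⟩ := Finset.mem_sdiff.1 (hfm d)
    intro x hx a b hF hlt
    by_cases hlo : (R : ℤ) * a < (R : ℤ) ^ N
    · exact h x (hsub _ hdU hx) a b hF hlo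
    · push Not at hlo
      by_contra hcon
      push Not at hcon
      have h2 : (R : ℤ) * a < 2 ^ (2 * m) * (R : ℤ) ^ N := by
        have : (2 : ℤ) ^ (2 * m) = R := by rw [hR, pow_mul]; norm_num
        rw [this, ← pow_succ']; exact hlt
      obtain ⟨k, hk, h3, h4⟩ := exists_block hlo h2
      apply hdK
      rw [hKd, Finset.mem_union]
      left
      rw [Finset.mem_biUnion]
      exact ⟨k, Finset.mem_range.2 hk, Finset.mem_filter.2 ⟨hdU, a, b, hF, h3, h4, x, hx, hcon⟩⟩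
  · obtain ⟨hdU, hdK⟩ := Finset.mem_sdiff.1 (hfm d)
    intro p q hq hq2 x hx
    by_contra hcon
    push Not at hcon
    apply hdK
    rw [hKd, Finset.mem_union]
    right
    exact Finset.mem_filter.2 ⟨hdU, p, q, hq, hq2, x, hx, hcon⟩
  · intro d d' hdd z hz w hw
    have hne : f d ≠ f d' := fun h => hdd (f.injective h)
    obtain ⟨hz1, hz2⟩ := hz
    obtain ⟨hw1, hw2⟩ := hw
    rw [← hu] at hz1 hz2 hw1 hw2
    push_cast at hz1 hz2 hw1 hw2
    rw [Real.dist_eq]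
    rcases lt_or_gt_of_ne hne with hlt | hlt
    · have : (f d : ℝ) + 1 ≤ f d' := by exact_mod_cast hlt
      have k1 := mul_le_mul_of_nonneg_right this hu0.le
      refine le_trans ?_ (neg_le_abs _)
      nlinarith
    · have : (f d' : ℝ) + 1 ≤ f d := by exact_mod_cast hlt
      have k1 := mul_le_mul_of_nonneg_right this hu0.le
      refine le_trans ?_ (le_abs_self _)
      nlinarith

end Pool.Agent.J4H53.DI
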